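import Pool.Agent.Helper40K9.RF.Meas

set_option autoImplicit false
set_option linter.unusedVariables false
set_option linter.unusedSectionVars false

/-! Estimates for one block. -/

namespace Pool.Agent.Helper40K9.RF

open Finset MeasureTheory

variable {X : Type*} [MeasurableSpace X]

/-- a regular distance function -/
structure Reg (μ : Measure X) (D : X → X → ℝ) (d : ℕ) (c₁ c₂ : ℝ) : Prop where
  self : ∀ x, D x x = 0
  symm : ∀ x y, D x y = D y x
  tri : ∀ x y z, D x z ≤ D x y + D y z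
  meas : Measurable (fun p : X × X => D p.1 p.2)
  c₁_pos : 0 < c₁
  c₂_pos : 0 < c₂
  d_pos : 1 ≤ d
  lower : ∀ x r, 0 < r → r ≤ 1 → c₁ * r ^ d ≤ μ.real (cb D x r)
  upper : ∀ x r, 0 < r → μ.real (cb D x r) ≤ c₂ * r ^ d

variable {μ : Measure X} [IsProbabilityMeasure μ] {D : X → X → ℝ} {d : ℕ} {c₁ c₂ : ℝ}

theorem Reg.mcb (hR : Reg μ D d c₁ c₂) (x : X) (r : ℝ) : MeasurableSet (cb D x r) :=
  measurableSet_le (hR.meas.comp measurable_prodMk_left) measurable_const

theorem pow_exp_le (n : ℕ) {γ : ℝ} (hγ : 0 < γ) : ∃ K : ℝ, 0 ≤ K ∧ ∀ s : ℝ, 0 < s →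
    s ^ n * Real.exp (-(γ * s)) ≤ K / s := by
  refine ⟨(n + 1).factorial / γ ^ (n + 1), by positivity, fun s hs => ?_⟩
  have h1 := Real.pow_div_factorial_le_exp (γ * s) (by positivity) (n + 1)
  rw [Real.exp_neg, le_div_iff₀ hs, ← div_eq_mul_inv, div_mul_eq_mul_div, div_le_div_iff₀
    (Real.exp_pos _) (by positivity)]
  rw [div_le_iff₀ (by positivity)] at h1
  calc s ^ n * s * γ ^ (n + 1) = (γ * s) ^ (n + 1) := by ring
    _ ≤ Real.exp (γ * s) * (n + 1).factorial := h1
    _ = _ := by ring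

theorem cov_bound (hR : Reg μ D d c₁ c₂) {J I : Finset ℕ} {B : Set X} (hB : MeasurableSet B)
    {A V : Set X} {R v b : ℝ} {s : ℕ} (hs : 1 ≤ s) (hR0 : 0 < R) (hR1 : R ≤ 1) (hb : 0 ≤ b)
    (hAV : ∀ y ∈ A, cb D y (R / (6 * s ^ 2)) ⊆ V) (hAB : ∀ y ∈ A, Disjoint (cb D y (R / (2 * s ^ 2))) B)
    (hV : μ.real V ≤ v) (hI : b * s ^ (2 * d + 1) ≤ I.card * R ^ d) :
    (Pr μ).real (Avoid J B ∩ {ω | ¬ Cov D ω A I (R / s ^ 2)}) ≤
      (Pr μ).real (Avoid J B) * (v / (c₁ * (R / (6 * s ^ 2)) ^ d) *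
        Real.exp (-((c₁ * b / 2 ^ d) * s))) := by
  have hs0 : (0 : ℝ) < s := by exact_mod_cast hs
  have hs1 : (1 : ℝ) ≤ s := by exact_mod_cast hs
  have hc := hR.c₁_pos
  set η : ℝ := R / (2 * s ^ 2) with hη
  have hη0 : 0 < η := by positivity
  have hη3 : η / 3 = R / (6 * s ^ 2) := by rw [hη]; field_simp; norm_num
  have hη1 : η ≤ 1 := by
    rw [hη, div_le_one (by positivity)]
    nlinarith
  obtain ⟨Y, hY1, hY2, hY3⟩ := exists_net (μ := μ) hR.symm hR.tri hR.self hR.mcb (A := A) (V := V)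
    hη0 (κ := c₁ * (η / 3) ^ d) (by positivity)
    (fun x _ => hR.lower x _ (by positivity) (by linarith)) (fun x hx => by
      rw [hη3]
      exact hAV x hx)
  have h1 := cov_union (μ := μ) hR.symm hR.tri hR.mcb (J := J) (I := I) hB hY2
    (κ := c₁ * η ^ d) (fun y _ => hR.lower y _ hη0 hη1) (fun y hy => hAB y (hY1 y hy))
    (by
      by_cases hne : Nonempty X
      · obtain ⟨x⟩ := hne
        exact (hR.lower x η hη0 hη1).trans measureReal_le_one
      · rw [not_nonempty_iff] at hne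
        have h1 : μ Set.univ = 1 := measure_univ
        rw [Set.univ_eq_empty_iff.2 hne, measure_empty] at h1
        exact absurd h1 zero_ne_one)
  have h2 : 2 * η = R / s ^ 2 := by rw [hη]; field_simp
  rw [h2] at h1
  refine h1.trans ?_
  have h3 : (Y.card : ℝ) ≤ v / (c₁ * (R / (6 * s ^ 2)) ^ d) := by
    rw [le_div_iff₀ (by positivity), ← hη3]
    exact hY3.trans hV
  have hκ1 : c₁ * η ^ d ≤ 1 := by
    by_cases hne : Nonempty X
    · obtain ⟨x⟩ := hne
      exact (hR.lower x η hη0 hη1).trans measureReal_le_one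
    · rw [not_nonempty_iff] at hne
      have h1 : μ Set.univ = 1 := measure_univ
      rw [Set.univ_eq_empty_iff.2 hne, measure_empty] at h1
      exact absurd h1 zero_ne_one
  have h4 : (1 - c₁ * η ^ d) ^ I.card ≤ Real.exp (-((c₁ * b / 2 ^ d) * s)) := by
    calc (1 - c₁ * η ^ d) ^ I.card ≤ (Real.exp (-(c₁ * η ^ d))) ^ I.card :=
          pow_le_pow_left₀ (by linarith) (Real.one_sub_le_exp_neg _) _
      _ = Real.exp (-(I.card * (c₁ * η ^ d))) := by
          rw [← Real.exp_nat_mul]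
          ring_nf
      _ ≤ _ := by
          apply Real.exp_le_exp.2
          rw [neg_le_neg_iff]
          have h5 : η ^ d = R ^ d / (2 ^ d * s ^ (2 * d)) := by
            rw [hη, div_pow, mul_pow, ← pow_mul]
          rw [h5]
          have h6 : (I.card : ℝ) * (c₁ * (R ^ d / (2 ^ d * s ^ (2 * d)))) =
              (c₁ / (2 ^ d * s ^ (2 * d))) * (I.card * R ^ d) := by
            field_simp
          rw [h6]
          have h7 : c₁ * b / 2 ^ d * s = (c₁ / (2 ^ d * s ^ (2 * d))) * (b * s ^ (2 * d + 1)) := by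
            rw [pow_succ]
            field_simp
          rw [h7]
          exact mul_le_mul_of_nonneg_left hI (by positivity)
  have h8 : 0 ≤ (Pr μ).real (Avoid J B) := measureReal_nonneg
  calc (Y.card : ℝ) * ((Pr μ).real (Avoid J B) * (1 - c₁ * η ^ d) ^ I.card)
      ≤ (Y.card : ℝ) * ((Pr μ).real (Avoid J B) * Real.exp (-((c₁ * b / 2 ^ d) * s))) := by
        gcongr
    _ ≤ v / (c₁ * (R / (6 * s ^ 2)) ^ d) * ((Pr μ).real (Avoid J B) *
        Real.exp (-((c₁ * b / 2 ^ d) * s))) := by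
        gcongr
    _ = _ := by ring

theorem chain_bound (hR : Reg μ D d c₁ c₂) {J I : Finset ℕ} (hJI : Disjoint I J) {B : Set X}
    (hB : MeasurableSet B) {A : Set X} (hA : MeasurableSet A) {R w b' : ℝ} {s C : ℕ} (hs : 1 ≤ s)
    (hR0 : 0 < R) (hb : 0 ≤ b') (hI : I.card * R ^ d ≤ b' * s ^ (2 * d + 1))
    (hIA : I.card * μ.real A ≤ w * s ^ (2 * d + 1)) (hC : 3 * (c₂ * b') + 1 ≤ C) :
    (Pr μ).real (Avoid J B ∩ {ω | Chain D ω A I (R / s ^ 2) (C * s)}) ≤
      (Pr μ).real (Avoid J B) * (w * (s ^ (2 * d + 1) * Real.exp (-(1 * (s : ℝ))))) := by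
  have hs0 : (0 : ℝ) < s := by exact_mod_cast hs
  have hc := hR.c₂_pos
  have hh : 0 < R / (s : ℝ) ^ 2 := by positivity
  have h1 := chain_union (μ := μ) hR.meas (J := J) (I := I) hJI hB hA (h := R / s ^ 2)
    (q := c₂ * (R / s ^ 2) ^ d) (fun x => hR.upper x _ hh) (by positivity) (C * s)
  refine h1.trans ?_
  set n := I.card with hn
  set m := C * s with hm
  set q := c₂ * (R / (s : ℝ) ^ 2) ^ d with hq
  set a := (Pr μ).real (Avoid J B) with ha
  have ha0 : 0 ≤ a := measureReal_nonneg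
  have hq0 : 0 ≤ q := by positivity
  have hA0 : 0 ≤ μ.real A := measureReal_nonneg
  have h2 : (n.choose (m + 1) : ℝ) ≤ (n : ℝ) ^ (m + 1) / m.factorial := by
    refine (Nat.choose_le_pow_div (α := ℝ) (m + 1) n).trans ?_
    apply div_le_div_of_nonneg_left (by positivity) (by positivity)
    exact_mod_cast Nat.factorial_le (by omega)
  have hz : n * q ≤ c₂ * b' * s := by
    have h5 : q = c₂ * R ^ d / s ^ (2 * d) := by
      rw [hq, div_pow, ← pow_mul]
      ring
    rw [h5]
    have h6 : (n : ℝ) * (c₂ * R ^ d / s ^ (2 * d)) = (c₂ / s ^ (2 * d)) * (n * R ^ d) := by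
      field_simp
    have h7 : c₂ * b' * s = (c₂ / s ^ (2 * d)) * (b' * s ^ (2 * d + 1)) := by
      rw [pow_succ]
      field_simp
    rw [h6, h7]
    exact mul_le_mul_of_nonneg_left hI (by positivity)
  have h3 : (n * q) ^ m / m.factorial ≤ Real.exp (-(1 * (s : ℝ))) := by
    have h4 := Real.pow_div_factorial_le_exp (3 * (n * q)) (by positivity) m
    have h5 : (3 * (n * q)) ^ m / m.factorial = 3 ^ m * ((n * q) ^ m / m.factorial) := by
      rw [mul_pow]; ring
    rw [h5] at h4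
    have h6 : Real.exp (m : ℝ) ≤ 3 ^ m := by
      rw [← Real.exp_one_pow]
      exact pow_le_pow_left₀ (Real.exp_pos 1).le Real.exp_one_lt_three.le _
    have h7 : 0 ≤ (n * q) ^ m / m.factorial := by positivity
    have h8 : Real.exp (m : ℝ) * ((n * q) ^ m / m.factorial) ≤ Real.exp (3 * (n * q)) :=
      (mul_le_mul_of_nonneg_right h6 h7).trans h4
    have h9 : (n * q) ^ m / m.factorial ≤ Real.exp (3 * (n * q)) / Real.exp (m : ℝ) := by
      rw [le_div_iff₀ (Real.exp_pos _)]
      linarith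
    refine h9.trans ?_
    rw [← Real.exp_sub]
    apply Real.exp_le_exp.2
    have h10 : (m : ℝ) = C * s := by rw [hm]; push_cast; ring
    rw [h10]
    nlinarith
  calc (n.choose (m + 1) : ℝ) * (a * (μ.real A * q ^ m))
      ≤ (n : ℝ) ^ (m + 1) / m.factorial * (a * (μ.real A * q ^ m)) :=
        mul_le_mul_of_nonneg_right h2 (by positivity)
    _ = a * ((n * μ.real A) * ((n * q) ^ m / m.factorial)) := by
        rw [mul_pow, pow_succ]
        ring
    _ ≤ a * ((w * s ^ (2 * d + 1)) * Real.exp (-(1 * (s : ℝ)))) := by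
        apply mul_le_mul_of_nonneg_left _ ha0
        apply mul_le_mul hIA h3 (by positivity)
        exact le_trans (by positivity) hIA
    _ = _ := by ring

theorem iUnion_le {Ω : Type*} [MeasurableSpace Ω] (P : Measure Ω) [IsProbabilityMeasure P]
    {S : ℕ → Set Ω} {c : ℝ} (hc : 0 ≤ c) (h : ∀ k, P.real (S k) ≤ c * (1 / 2) ^ k) :
    P.real (⋃ k, S k) ≤ 2 * c := by
  have h1 : P (⋃ k, S k) ≤ ENNReal.ofReal (2 * c) := by
    refine (measure_iUnion_le S).trans ?_
    calc ∑' k, P (S k) ≤ ∑' k, ENNReal.ofReal (c * (1 / 2) ^ k) := by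
          apply ENNReal.tsum_le_tsum
          intro k
          rw [← ofReal_measureReal]
          exact ENNReal.ofReal_le_ofReal (h k)
      _ = ENNReal.ofReal (∑' k : ℕ, c * (1 / 2) ^ k) := by
          rw [ENNReal.ofReal_tsum_of_nonneg (fun k => by positivity)]
          exact summable_geometric_two.mul_left c
      _ = _ := by
          rw [tsum_mul_left, tsum_geometric_two, mul_comm]
  unfold Measure.real
  exact ENNReal.toReal_le_of_le_ofReal (by positivity) h1

end Pool.Agent.Helper40K9.RF
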