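import Pool.Agent.Helper40K9.RF.Local

set_option autoImplicit false
set_option linter.unusedVariables false
set_option linter.unusedSectionVars false

/-! Almost sure statements about the infinite tree. -/

namespace Pool.Agent.Helper40K9.RF

open Finset MeasureTheory Filter Topology

variable {X : Type*} [MeasurableSpace X]
variable {μ : Measure X} [IsProbabilityMeasure μ] {D : X → X → ℝ} {d : ℕ} {c₁ c₂ : ℝ}

open Classical in
/-- the number of points in `B` among the first `n` -/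
noncomputable def cnt (B : Set X) (ω : ℕ → X) (n : ℕ) : ℕ := ((range n).filter fun i => ω i ∈ B).card

theorem slln {B : Set X} (hB : MeasurableSet B) :
    ∀ᵐ ω ∂(Pr μ), Tendsto (fun n : ℕ => (cnt B ω n : ℝ) / n) atTop (𝓝 (μ.real B)) := by
  classical
  set g : X → ℝ := B.indicator (fun _ => (1 : ℝ)) with hg
  have hgm : Measurable g := measurable_const.indicator hB
  have h1 := ProbabilityTheory.strong_law_ae_real (μ := Pr μ) (fun i ω => g (ω i)) ?_ ?_ ?_
  · have h2 : ∫ ω, g (ω 0) ∂(Pr μ) = μ.real B := by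
      have h3 := (measurePreserving_eval_infinitePi (fun _ : ℕ => μ) 0)
      have h4 : ∫ ω, g (Function.eval 0 ω) ∂(Pr μ) = ∫ x, g x ∂μ := by
        have h5 := integral_map (μ := Pr μ) h3.measurable.aemeasurable
          (f := g) hgm.aestronglyMeasurable
        rw [h3.map_eq] at h5
        exact h5.symm
      rw [show (fun ω : ℕ → X => g (ω 0)) = fun ω => g (Function.eval 0 ω) from rfl, h4, hg,
        integral_indicator hB]
      simp
    rw [h2] at h1
    filter_upwards [h1] with ω hω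
    refine hω.congr fun n => ?_
    congr 1
    unfold cnt
    rw [card_filter]
    push_cast
    refine sum_congr rfl fun i _ => ?_
    rw [hg]
    by_cases h : ω i ∈ B
    · simp [h]
    · simp [h]
  · have h3 : Integrable g μ := (integrable_const 1).indicator hB
    exact (measurePreserving_eval_infinitePi (fun _ : ℕ => μ) 0).integrable_comp_of_integrable h3
  · intro i j hij
    have := ProbabilityTheory.iIndepFun_infinitePi (P := fun _ : ℕ => μ) (X := fun _ : ℕ => g)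
      (fun _ => hgm)
    exact this.indepFun hij
  · intro i
    refine ⟨(hgm.comp (measurable_pi_apply i)).aemeasurable,
      (hgm.comp (measurable_pi_apply 0)).aemeasurable, ?_⟩
    have h3 := (measurePreserving_eval_infinitePi (fun _ : ℕ => μ) i).map_eq
    have h4 := (measurePreserving_eval_infinitePi (fun _ : ℕ => μ) 0).map_eq
    have h5 : (fun ω : ℕ → X => g (ω i)) = g ∘ Function.eval i := rfl
    have h6 : (fun ω : ℕ → X => g (ω 0)) = g ∘ Function.eval 0 := rfl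
    rw [h5, h6, ← Measure.map_map hgm (measurable_pi_apply i), ← Measure.map_map hgm
      (measurable_pi_apply 0)]
    rw [h3, h4]

theorem ae_of_geom {Ω : Type*} [MeasurableSpace Ω] (P : Measure Ω) [IsProbabilityMeasure P]
    (S : ℕ → Set Ω) {a : ℝ} (ha : 0 ≤ a) (h : ∀ k, P.real (S k) ≤ a * (1 / 2) ^ k) :
    ∀ᵐ ω ∂P, ∀ᶠ k in atTop, ω ∉ S k := by
  apply ae_eventually_notMem
  have hs : Summable fun k : ℕ => a * (1 / 2 : ℝ) ^ k :=
    (summable_geometric_of_lt_one (by norm_num) (by norm_num)).mul_left a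
  have h1 : ∀ k, P (S k) ≤ ENNReal.ofReal (a * (1 / 2) ^ k) := by
    intro k
    rw [← ofReal_measureReal]
    exact ENNReal.ofReal_le_ofReal (h k)
  have h2 : ∑' k, P (S k) ≤ ∑' k, ENNReal.ofReal (a * (1 / 2) ^ k) := ENNReal.tsum_le_tsum h1
  rw [← ENNReal.ofReal_tsum_of_nonneg (fun k => by positivity) hs] at h2
  exact ne_top_of_le_ne_top ENNReal.ofReal_ne_top h2

theorem tail_sum (C k₀ k : ℕ) :
    ∑ l ∈ Icc k₀ k, (((C * sc 1 l : ℕ) : ℝ) * (1 / (sc 1 l : ℝ) ^ 2)) ≤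
      (2 : ℝ) * (C : ℝ) * (1 / 2) ^ k₀ := by
  have h1 : ∀ l, (((C * sc 1 l : ℕ) : ℝ) * (1 / (sc 1 l : ℝ) ^ 2)) = (C : ℝ) * (1 / 2) ^ l := by
    intro l
    unfold sc
    push_cast
    rw [one_div (2 : ℝ), inv_pow]
    field_simp
  rw [sum_congr rfl fun l _ => h1 l, ← mul_sum]
  have h3 : ∑ l ∈ Icc k₀ k, ((1 : ℝ) / 2) ^ l ≤ 2 * (1 / 2) ^ k₀ := by
    by_cases hk : k₀ ≤ k
    · obtain ⟨j, rfl⟩ := Nat.exists_eq_add_of_le hk
      have h4 : ∀ j : ℕ, ∑ l ∈ Icc k₀ (k₀ + j), ((1 : ℝ) / 2) ^ l =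
          2 * (1 / 2) ^ k₀ - (1 / 2) ^ (k₀ + j) := by
        intro j
        induction j with
        | zero => simp; ring
        | succ j ih =>
          rw [← add_assoc, sum_Icc_succ_top (by omega), ih, pow_succ]
          ring
      rw [h4]
      have : (0 : ℝ) ≤ (1 / 2) ^ (k₀ + j) := by positivity
      linarith
    · rw [Icc_eq_empty (by omega), sum_empty]
      positivity
  calc (C : ℝ) * ∑ l ∈ Icc k₀ k, ((1 : ℝ) / 2) ^ l ≤ C * (2 * (1 / 2) ^ k₀) :=
        mul_le_mul_of_nonneg_left h3 (by positivity)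
    _ = _ := by ring

/-- eventually the blocks are good -/
theorem global_blocks (hR : Reg μ D d c₁ c₂) : ∃ C : ℕ, ∀ᵐ ω ∂(Pr μ), ∃ k₁ : ℕ,
    (∀ k, k₁ ≤ k → Cov D ω Set.univ (Ioc (Tm d 1 1 (k - 1)) (Tm d 1 1 k))
      (1 / (sc 1 k : ℝ) ^ 2)) ∧
    (∀ k, k₁ ≤ k → ¬ Chain D ω Set.univ (Ioc (Tm d 1 1 k) (Tm d 1 1 (k + 1)))
      (1 / (sc 1 k : ℝ) ^ 2) (C * sc 1 k)) := by
  have hc1 := hR.c₁_pos
  have hc2 := hR.c₂_pos
  have hγ : 0 < c₁ * (1 / 2) / 2 ^ d := by positivity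
  obtain ⟨K1, hK1, hK1'⟩ := pow_exp_le (2 * d) hγ
  obtain ⟨K2, hK2, hK2'⟩ := pow_exp_le (2 * d + 1) one_pos
  obtain ⟨C, hC⟩ := exists_nat_ge (3 * (c₂ * 2 ^ (2 * d + 1)) + 1)
  refine ⟨C, ?_⟩
  have hav : Avoid ∅ (∅ : Set X) = Set.univ := by
    ext ω
    simp [Avoid]
  have hav1 : (Pr μ).real (Avoid ∅ (∅ : Set X)) = 1 := by rw [hav, probReal_univ]
  have hscr : ∀ k, (sc 1 k : ℝ) = 2 ^ k := by
    intro k
    unfold sc
    push_cast
    ring
  have hinv : ∀ k (K : ℝ), K / (sc 1 (k + 1) : ℝ) = K / 2 * (1 / 2) ^ k := by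
    intro k K
    rw [hscr, pow_succ, one_div, inv_pow]
    field_simp
  have hTs : ∀ k, (Tm d 1 1 k : ℝ) = (sc 1 k : ℝ) ^ (2 * d + 1) := by
    intro k
    unfold Tm
    push_cast
    ring
  have p2 : ∀ k, (Pr μ).real {ω | ¬ Cov D ω Set.univ (Ioc (Tm d 1 1 k) (Tm d 1 1 (k + 1)))
      (1 / (sc 1 (k + 1) : ℝ) ^ 2)} ≤ (6 ^ d / c₁ * K1 / 2) * (1 / 2) ^ k := by
    intro k
    set s := sc 1 (k + 1) with hsdef
    have hs1 : 1 ≤ s := sc_pos le_rfl _
    have hsp : (0 : ℝ) < s := by exact_mod_cast hs1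
    have h1 := cov_bound (μ := μ) hR (J := ∅) (I := Ioc (Tm d 1 1 k) (Tm d 1 1 (k + 1)))
      (B := ∅) MeasurableSet.empty (A := Set.univ) (V := Set.univ) (R := 1) (v := 1) (b := 1 / 2)
      (s := s) hs1 one_pos le_rfl (by norm_num) (fun _ _ => Set.subset_univ _)
      (fun _ _ => Set.disjoint_empty _) measureReal_le_one (by
        have h2 := hTs (k + 1)
        have h3 := Tm_double d 1 1 k
        have h4 : (Tm d 1 1 (k + 1) : ℝ) ≤ 2 * (Ioc (Tm d 1 1 k) (Tm d 1 1 (k + 1))).card := by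
          rw [Nat.card_Ioc]
          have : Tm d 1 1 (k + 1) ≤ 2 * (Tm d 1 1 (k + 1) - Tm d 1 1 k) := by omega
          exact_mod_cast this
        rw [← hsdef] at h2
        rw [one_pow, mul_one]
        linarith)
    rw [hav1, hav, Set.univ_inter, one_mul] at h1
    refine h1.trans ?_
    have h2 : (1 : ℝ) / (c₁ * (1 / (6 * (s : ℝ) ^ 2)) ^ d) = 6 ^ d / c₁ * (s : ℝ) ^ (2 * d) := by
      rw [div_pow, mul_pow, ← pow_mul, one_pow]
      field_simp
    rw [h2]
    have h3 := hK1' s hsp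
    calc 6 ^ d / c₁ * (s : ℝ) ^ (2 * d) * Real.exp (-(c₁ * (1 / 2) / 2 ^ d * s)) =
          6 ^ d / c₁ * ((s : ℝ) ^ (2 * d) * Real.exp (-(c₁ * (1 / 2) / 2 ^ d * s))) := by ring
      _ ≤ 6 ^ d / c₁ * (K1 / s) := mul_le_mul_of_nonneg_left h3 (by positivity)
      _ = _ := by
          rw [hsdef, hinv]
          ring
  have p3 : ∀ k, (Pr μ).real {ω | Chain D ω Set.univ
      (Ioc (Tm d 1 1 (k + 1)) (Tm d 1 1 (k + 2))) (1 / (sc 1 (k + 1) : ℝ) ^ 2)
      (C * sc 1 (k + 1))} ≤ (2 ^ (2 * d + 1) * K2 / 2) * (1 / 2) ^ k := by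
    intro k
    set s := sc 1 (k + 1) with hsdef
    have hs1 : 1 ≤ s := sc_pos le_rfl _
    have hsp : (0 : ℝ) < s := by exact_mod_cast hs1
    have hcard : ((Ioc (Tm d 1 1 (k + 1)) (Tm d 1 1 (k + 2))).card : ℝ) ≤
        2 ^ (2 * d + 1) * Tm d 1 1 (k + 1) := by
      rw [Nat.card_Ioc]
      have := Tm_succ d 1 1 (k + 1)
      have h2 : Tm d 1 1 (k + 2) - Tm d 1 1 (k + 1) ≤ 2 ^ (2 * d + 1) * Tm d 1 1 (k + 1) := by
        rw [show k + 2 = k + 1 + 1 from rfl]
        omega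
      exact_mod_cast h2
    rw [hTs, ← hsdef] at hcard
    have h1 := chain_bound (μ := μ) hR (J := ∅)
      (I := Ioc (Tm d 1 1 (k + 1)) (Tm d 1 1 (k + 2))) (Finset.disjoint_empty_right _) (B := ∅)
      MeasurableSet.empty (A := Set.univ) MeasurableSet.univ (R := 1) (w := 2 ^ (2 * d + 1))
      (b' := 2 ^ (2 * d + 1)) (s := s) (C := C) hs1 one_pos (by positivity) (by
        rw [one_pow, mul_one]
        exact hcard) (by
        rw [probReal_univ, mul_one]
        exact hcard) hC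
    rw [hav1, hav, Set.univ_inter, one_mul] at h1
    refine h1.trans ?_
    have h3 := hK2' s hsp
    calc _ ≤ 2 ^ (2 * d + 1) * (K2 / s) := mul_le_mul_of_nonneg_left h3 (by positivity)
      _ = _ := by
          rw [hsdef, hinv]
          ring
  have q2 := ae_of_geom (Pr μ) _ (by positivity) p2
  have q3 := ae_of_geom (Pr μ) _ (by positivity) p3
  filter_upwards [q2, q3] with ω h2 h3
  rw [eventually_atTop] at h2 h3
  obtain ⟨a, ha⟩ := h2
  obtain ⟨b, hb⟩ := h3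
  refine ⟨a + b + 1, fun k hk => ?_, fun k hk => ?_⟩
  · obtain ⟨k, rfl⟩ := Nat.exists_eq_add_of_le' (show 1 ≤ k by omega)
    rw [Nat.add_sub_cancel]
    have := ha k (by omega)
    exact not_not.1 this
  · obtain ⟨k, rfl⟩ := Nat.exists_eq_add_of_le' (show 1 ≤ k by omega)
    exact hb k (by omega)

/-- late vertices have their descendants nearby -/
theorem global_disp (hR : Reg μ D d c₁ c₂) : ∀ᵐ ω ∂(Pr μ), ∀ r : ℝ, 0 < r → ∃ K : ℕ, ∀ i, K ≤ i →
    ∀ u, IsDesc (par D ω) i u → D (ω u) (ω i) ≤ r := by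
  obtain ⟨C, hC⟩ := global_blocks (μ := μ) hR
  filter_upwards [hC] with ω hω
  obtain ⟨k₁, h1, h2⟩ := hω
  intro r hr
  obtain ⟨k₂, hk₂⟩ : ∃ k₂ : ℕ, 2 * C * (1 / 2 : ℝ) ^ k₂ ≤ r := by
    obtain ⟨k₂, hk₂⟩ := exists_pow_lt_of_lt_one (show (0 : ℝ) < r / (2 * C + 1) by positivity)
      (show (1 / 2 : ℝ) < 1 by norm_num)
    refine ⟨k₂, ?_⟩
    rw [lt_div_iff₀ (by positivity)] at hk₂
    have : (0 : ℝ) < (1 / 2) ^ k₂ := by positivity
    nlinarith
  set k₀ := k₁ + k₂ with hk₀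
  have hT := Tm_mono d (s₀ := 1) (t := 1) le_rfl le_rfl
  refine ⟨Tm d 1 1 k₀ + 1, fun i hi u hu => ?_⟩
  obtain ⟨s, hs⟩ := hu
  have hui : i ≤ u := by
    have := iter_le (D := D) (ω := ω) u 0 s (by omega)
    rw [hs] at this
    simpa using this
  obtain ⟨k, hk1, hk2, hk3, hk4⟩ := find_block hT (k₀ := k₀) (k := u) (w := u) (by omega) hT.le_apply
  have h3 := disp (D := D) (ω := ω) (A := Set.univ) (T := Tm d 1 1) (h := fun k => 1 / (sc 1 k : ℝ) ^ 2)
    (m := fun k => C * sc 1 k) hR.self hR.tri hT (k₀ := k₀) (fun k => by positivity)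
    (fun k hk => h1 k (by omega)) (fun k hk => h2 k (by omega)) k hk1 u (mem_Ioc.2 ⟨hk3, hk4⟩)
    (fun _ _ => Set.mem_univ _) s (by
      intro b hb
      have := iter_le (D := D) (ω := ω) u b s hb.le
      rw [hs] at this
      omega)
  rw [hs] at h3
  refine h3.trans ((tail_sum C k₀ k).trans (le_trans ?_ hk₂))
  apply mul_le_mul_of_nonneg_left _ (by positivity)
  exact pow_le_pow_of_le_one (by norm_num) (by norm_num) (by omega)

theorem exists_univ_net (hR : Reg μ D d c₁ c₂) {η : ℝ} (hη : 0 < η) :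
    ∃ Y : Finset X, ∀ a, ∃ y ∈ Y, D y a ≤ η := by
  have hc := hR.c₁_pos
  set ρ := min (η / 3) 1 with hρ
  have hρ0 : 0 < ρ := by positivity
  have h1 : ∀ x, c₁ * ρ ^ d ≤ μ.real (cb D x (η / 3)) := by
    intro x
    refine (hR.lower x ρ hρ0 (min_le_right _ _)).trans (measureReal_mono ?_ (measure_ne_top _ _))
    intro y hy
    have h2 : D x y ≤ ρ := hy
    exact h2.trans (min_le_left _ _)
  obtain ⟨Y, -, hY, -⟩ := exists_net (μ := μ) hR.symm hR.tri hR.self hR.mcb (A := Set.univ)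
    (V := Set.univ) hη (κ := c₁ * ρ ^ d) (by positivity) (fun x _ => h1 x)
    (fun _ _ => Set.subset_univ _)
  exact ⟨Y, fun a => hY a (Set.mem_univ a)⟩

/-- late vertices have few descendants -/
theorem few_desc (hR : Reg μ D d c₁ c₂) {δ : ℝ} (hδ : 0 < δ) : ∀ᵐ ω ∂(Pr μ), ∃ K : ℕ, ∀ i, K ≤ i →
    ∀ n, i < n → (descN (par D ω) n i : ℝ) < δ * n := by
  classical
  have hc2 := hR.c₂_pos
  obtain ⟨r, hr0, hr⟩ : ∃ r : ℝ, 0 < r ∧ c₂ * (2 * r) ^ d < δ := by
    refine ⟨min (1 / 2) (δ / (4 * c₂)), by positivity, ?_⟩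
    set r := min (1 / 2) (δ / (4 * c₂)) with hrdef
    have h0 : 0 < r := by positivity
    have h1 : 2 * r ≤ 1 := by
      have : r ≤ 1 / 2 := min_le_left _ _
      linarith
    have h2 : r ≤ δ / (4 * c₂) := min_le_right _ _
    rw [le_div_iff₀ (by positivity)] at h2
    have h3 : (2 * r) ^ d ≤ 2 * r := by
      have := pow_le_pow_of_le_one (show 0 ≤ 2 * r by positivity) h1 hR.d_pos
      rwa [pow_one] at this
    nlinarith
  obtain ⟨Y, hY⟩ := exists_univ_net (μ := μ) hR hr0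
  have h1 : ∀ᵐ ω ∂(Pr μ), ∀ y ∈ Y, Tendsto (fun n : ℕ => (cnt (cb D y (2 * r)) ω n : ℝ) / n) atTop
      (𝓝 (μ.real (cb D y (2 * r)))) := by
    have h2 : ∀ y : Y, ∀ᵐ ω ∂(Pr μ), Tendsto (fun n : ℕ => (cnt (cb D y.1 (2 * r)) ω n : ℝ) / n)
      atTop (𝓝 (μ.real (cb D y.1 (2 * r)))) := fun y => slln (hR.mcb _ _)
    rw [← ae_all_iff] at h2
    filter_upwards [h2] with ω h y hy
    exact h ⟨y, hy⟩
  filter_upwards [h1, global_disp (μ := μ) hR] with ω hω1 hω2
  obtain ⟨K₁, hK₁⟩ := hω2 r hr0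
  have h3 : ∀ᶠ n : ℕ in atTop, ∀ y ∈ Y, (cnt (cb D y (2 * r)) ω n : ℝ) / n < δ := by
    rw [Finset.eventually_all]
    intro y hy
    refine (hω1 y hy).eventually_lt_const ?_
    exact (hR.upper y _ (by positivity)).trans_lt hr
  rw [eventually_atTop] at h3
  obtain ⟨K₂, hK₂⟩ := h3
  refine ⟨K₁ + K₂, fun i hi n hn => ?_⟩
  obtain ⟨y, hy, hyi⟩ := hY (ω i)
  have h4 := hK₂ n (by omega) y hy
  have hn0 : (0 : ℝ) < n := by exact_mod_cast (by omega : 0 < n)
  rw [div_lt_iff₀ hn0] at h4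
  refine lt_of_le_of_lt ?_ h4
  unfold descN cnt
  have h5 : ((range n).filter fun u => IsDesc (par D ω) i u) ⊆
      (range n).filter fun u => ω u ∈ cb D y (2 * r) := by
    intro u hu
    rw [mem_filter] at hu ⊢
    refine ⟨hu.1, ?_⟩
    have h6 := hK₁ i (by omega) u hu.2
    rw [hR.symm] at h6
    have h7 := hR.tri y (ω i) (ω u)
    have : D y (ω u) ≤ 2 * r := by linarith
    exact this
  have h6 := card_le_card h5
  refine le_trans ?_ (Nat.cast_le.2 h6)
  apply le_of_eq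
  congr!

/-- both classes are large -/
theorem large_cls (hR : Reg μ D d c₁ c₂) : ∀ᵐ ω ∂(Pr μ), ∃ m : ℕ, ∀ n, 2 ≤ n → ∀ j < 2,
    (1 / (m + 1 : ℝ)) * n ≤ clsN (par D ω) n j := by
  classical
  have hc1 := hR.c₁_pos
  have hY : ∀ q : ℕ, ∃ Y : Finset X, ∀ a, ∃ y ∈ Y, D y a ≤ 1 / (2 * (q + 1 : ℝ)) := fun q =>
    exists_univ_net (μ := μ) hR (by positivity)
  choose Y hY using hY
  have h1 : ∀ᵐ ω ∂(Pr μ), ∀ q : ℕ, ∀ y ∈ Y q, Tendsto
      (fun n : ℕ => (cnt (cb D y (1 / (2 * (q + 1 : ℝ)))) ω n : ℝ) / n) atTop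
      (𝓝 (μ.real (cb D y (1 / (2 * (q + 1 : ℝ)))))) := by
    rw [ae_all_iff]
    intro q
    have h2 : ∀ y : Y q, ∀ᵐ ω ∂(Pr μ), Tendsto
      (fun n : ℕ => (cnt (cb D y.1 (1 / (2 * (q + 1 : ℝ)))) ω n : ℝ) / n) atTop
      (𝓝 (μ.real (cb D y.1 (1 / (2 * (q + 1 : ℝ)))))) := fun y => slln (hR.mcb _ _)
    rw [← ae_all_iff] at h2
    filter_upwards [h2] with ω h y hy
    exact h ⟨y, hy⟩
  have h2 : ∀ᵐ ω ∂(Pr μ), ∀ j < 2, Alive D j ω := by
    filter_upwards [alive_ae (μ := μ) hR (show 0 < 2 by norm_num),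
      alive_ae (μ := μ) hR (show 1 < 2 by norm_num)] with ω h0 h1 j hj
    interval_cases j
    · exact h0
    · exact h1
  filter_upwards [h1, h2] with ω hω1 hω2
  have key : ∀ j < 2, ∃ m : ℕ, ∀ n, 2 ≤ n → (1 / (m + 1 : ℝ)) * n ≤ clsN (par D ω) n j := by
    intro j hj
    obtain ⟨q, hq⟩ := hω2 j hj
    obtain ⟨y, hy, hyj⟩ := hY q (ω j)
    set ρ : ℝ := 1 / (2 * (q + 1 : ℝ)) with hρ
    have hρ0 : 0 < ρ := by positivity
    have hρ1 : ρ ≤ 1 := by
      rw [hρ, div_le_one (by positivity)]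
      have : (0 : ℝ) ≤ q := by positivity
      linarith
    have hρ2 : 2 * ρ = 1 / (q + 1) := by rw [hρ]; field_simp
    set a := μ.real (cb D y ρ) with ha
    have ha0 : 0 < a := lt_of_lt_of_le (by positivity) (hR.lower y ρ hρ0 hρ1)
    have h3 := (hω1 q y hy).eventually_const_lt (show a / 2 < a by linarith)
    rw [eventually_atTop] at h3
    obtain ⟨N, hN⟩ := h3
    obtain ⟨m, hm⟩ := exists_nat_ge (max (2 / a) N)
    have hm1 : 2 / a ≤ m := (le_max_left _ _).trans hm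
    have hm2 : (N : ℝ) ≤ m := (le_max_right _ _).trans hm
    refine ⟨m, fun n hn => ?_⟩
    have hn0 : (0 : ℝ) < n := by exact_mod_cast (by omega : 0 < n)
    by_cases hnN : N ≤ n
    · have h4 := hN n hnN
      rw [lt_div_iff₀ hn0] at h4
      have h5 : cnt (cb D y ρ) ω n ≤ clsN (par D ω) n j := by
        unfold cnt clsN
        apply card_le_card
        intro u hu
        rw [mem_filter] at hu ⊢
        refine ⟨hu.1, hq u ?_⟩
        have h6 : D y (ω u) ≤ ρ := hu.2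
        have h7 := hR.tri (ω j) y (ω u)
        rw [hR.symm (ω j) y] at h7
        linarith
      have h6 : (cnt (cb D y ρ) ω n : ℝ) ≤ clsN (par D ω) n j := by exact_mod_cast h5
      refine le_trans ?_ (h4.le.trans h6)
      apply mul_le_mul_of_nonneg_right _ hn0.le
      rw [div_le_iff₀ (by positivity)]
      rw [div_le_iff₀ ha0] at hm1
      nlinarith
    · have h5 : 1 ≤ clsN (par D ω) n j := by
        unfold clsN
        rw [Nat.one_le_iff_ne_zero, ← Nat.pos_iff_ne_zero, card_pos]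
        exact ⟨j, by rw [mem_filter, mem_range]; exact ⟨by omega, cls_lt_two _ hj⟩⟩
      have h6 : (1 : ℝ) ≤ clsN (par D ω) n j := by exact_mod_cast h5
      refine le_trans ?_ h6
      rw [one_div, inv_mul_le_iff₀ (by positivity)]
      have : (n : ℝ) ≤ N := by exact_mod_cast (by omega : n ≤ N)
      linarith
  obtain ⟨m₀, h0⟩ := key 0 (by norm_num)
  obtain ⟨m₁, h1⟩ := key 1 (by norm_num)
  refine ⟨m₀ + m₁, fun n hn j hj => ?_⟩
  have hn0 : (0 : ℝ) < n := by exact_mod_cast (by omega : 0 < n)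
  interval_cases j
  · refine le_trans ?_ (h0 n hn)
    apply mul_le_mul_of_nonneg_right _ hn0.le
    apply one_div_le_one_div_of_le (by positivity)
    push_cast
    have : (0 : ℝ) ≤ m₁ := by positivity
    linarith
  · refine le_trans ?_ (h1 n hn)
    apply mul_le_mul_of_nonneg_right _ hn0.le
    apply one_div_le_one_div_of_le (by positivity)
    push_cast
    have : (0 : ℝ) ≤ m₀ := by positivity
    linarith

end Pool.Agent.Helper40K9.RF
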