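import Pool.Agent.Helper40K9.RF.Trial

set_option autoImplicit false
set_option linter.unusedVariables false
set_option linter.unusedSectionVars false

/-! Both classes contain a ball. -/

namespace Pool.Agent.Helper40K9.RF

open Finset MeasureTheory

variable {X : Type*} [MeasurableSpace X]
variable {μ : Measure X} [IsProbabilityMeasure μ] {D : X → X → ℝ} {d : ℕ} {c₁ c₂ : ℝ}

theorem avoid_lower (hR : Reg μ D d c₁ c₂) {x : X} {R β : ℝ} {t L : ℕ} (ht : 1 ≤ t) (hR0 : 0 < R)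
    (hRβ : R ^ d * t = β) (hβ : c₂ * 2 ^ d * β ≤ 1 / 2) {J : Finset ℕ} (hJ : J.card ≤ L * t) :
    (1 / 2 : ℝ) ^ L ≤ (Pr μ).real (Avoid J (ann D x R)) := by
  have hc2 := hR.c₂_pos
  have ht0 : (0 : ℝ) < t := by exact_mod_cast ht
  have ht1 : (1 : ℝ) ≤ t := by exact_mod_cast ht
  have hβ0 : 0 < β := by rw [← hRβ]; positivity
  rw [avoid_real J (measurableSet_ann hR x R)]
  set y := c₂ * 2 ^ d * β with hy
  have hy0 : 0 < y := by positivity
  have h1 : μ.real (ann D x R) ≤ y / t := by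
    have h2 : μ.real (ann D x R) ≤ μ.real (cb D x (2 * R)) :=
      measureReal_mono (fun z hz => hz.2) (measure_ne_top _ _)
    refine h2.trans ((hR.upper x _ (by positivity)).trans ?_)
    rw [le_div_iff₀ ht0, hy, ← hRβ, mul_pow]
    exact le_of_eq (by ring)
  have hyt : y / t ≤ 1 / 2 := by
    rw [div_le_iff₀ ht0]
    nlinarith
  have h3 : 1 - y ≤ (1 - y / t) ^ t := by
    have := one_add_mul_le_pow (a := -(y / t)) (by linarith) t
    have h4 : (t : ℝ) * -(y / t) = -y := by field_simp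
    rw [h4] at this
    calc 1 - y = 1 + -y := by ring
      _ ≤ _ := this
      _ = _ := by rw [← sub_eq_add_neg]
  calc (1 / 2 : ℝ) ^ L ≤ ((1 - y / t) ^ t) ^ L :=
        pow_le_pow_left₀ (by norm_num) (by linarith) _
    _ = (1 - y / t) ^ (L * t) := by rw [← pow_mul, mul_comm]
    _ ≤ (1 - μ.real (ann D x R)) ^ (L * t) := pow_le_pow_left₀ (by linarith) (by linarith) _
    _ ≤ (1 - μ.real (ann D x R)) ^ J.card := by
        apply pow_le_pow_of_le_one _ _ hJ
        · linarith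
        · have : 0 ≤ μ.real (ann D x R) := measureReal_nonneg
          linarith

theorem local_meas (hR : Reg μ D d c₁ c₂) (x : X) {j : ℕ} (hj : j < 2) {ε : ℝ} (hε : 0 < ε) :
    ∃ M : Set (ℕ → X), MeasurableSet M ∧ 1 - ε ≤ (Pr μ).real M ∧ ∀ ω ∈ M, ∃ r : ℝ, 0 < r ∧
      ∀ u, D x (Function.update ω j x u) ≤ r → cls (par D (Function.update ω j x)) u = j := by
  have hc1 := hR.c₁_pos
  have hc2 := hR.c₂_pos
  have hd := hR.d_pos
  -- the choice of `β`
  obtain ⟨β, hβ, hβ1, hβ2, hβ3⟩ : ∃ β : ℝ, 0 < β ∧ β ≤ 1 ∧ c₂ * 2 ^ (d + 1) * β ≤ ε / 8 ∧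
      c₂ * 2 ^ d * β ≤ 1 / 2 := by
    refine ⟨min 1 (min (ε / 8 / (c₂ * 2 ^ (d + 1))) (1 / 2 / (c₂ * 2 ^ d))), by positivity,
      min_le_left _ _, ?_, ?_⟩
    · have h1 : min 1 (min (ε / 8 / (c₂ * 2 ^ (d + 1))) (1 / 2 / (c₂ * 2 ^ d))) ≤
        ε / 8 / (c₂ * 2 ^ (d + 1)) := (min_le_right _ _).trans (min_le_left _ _)
      rw [le_div_iff₀ (by positivity)] at h1
      linarith
    · have h1 : min 1 (min (ε / 8 / (c₂ * 2 ^ (d + 1))) (1 / 2 / (c₂ * 2 ^ d))) ≤
        1 / 2 / (c₂ * 2 ^ d) := (min_le_right _ _).trans (min_le_right _ _)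
      rw [le_div_iff₀ (by positivity)] at h1
      linarith
  obtain ⟨C, hC⟩ := exists_nat_ge (3 * (c₂ * (2 ^ (2 * d + 1) * β)) + 1)
  obtain ⟨K, hK0, hK⟩ := trial_bad (μ := μ) hR hβ hC
  obtain ⟨s₁, hs₁⟩ := exists_nat_ge (K / (ε / 8))
  set s₀ := s₁ + 4 * C + 1 with hs₀
  have hs : 1 ≤ s₀ := by omega
  have hs0 : (0 : ℝ) < s₀ := by exact_mod_cast hs
  have hKs : K / s₀ ≤ ε / 8 := by
    rw [div_le_iff₀ hs0]
    rw [div_le_iff₀ (by positivity)] at hs₁
    have : (s₁ : ℝ) ≤ s₀ := by exact_mod_cast (by omega : s₁ ≤ s₀)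
    nlinarith
  set L := (2 * s₀) ^ (2 * d + 1) with hL
  have hL2 : 2 ≤ L := by
    calc 2 ≤ 2 * s₀ := by omega
      _ = (2 * s₀) ^ 1 := (pow_one _).symm
      _ ≤ _ := Nat.pow_le_pow_right (by omega) (by omega)
  have hT1 : ∀ i, Tm d s₀ (L ^ i) 1 = L ^ (i + 1) := by
    intro i
    unfold Tm sc
    rw [pow_one, ← hL, pow_succ]
    ring
  set Rr : ℕ → ℝ := fun i => (β / (L ^ i : ℕ)) ^ ((d : ℝ)⁻¹) with hRr
  have hLi : ∀ i, 1 ≤ L ^ i := fun i => Nat.pow_pos (by omega)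
  have hLr : ∀ i, (0 : ℝ) < (L ^ i : ℕ) := fun i => by exact_mod_cast hLi i
  have hRr0 : ∀ i, 0 < Rr i := fun i => Real.rpow_pos_of_pos (by have := hLr i; positivity) _
  have hRrd : ∀ i, Rr i ^ d = β / (L ^ i : ℕ) := fun i =>
    Real.rpow_inv_natCast_pow (by have := hLr i; positivity) (by omega)
  have hRrβ : ∀ i, Rr i ^ d * (L ^ i : ℕ) = β := fun i => by
    rw [hRrd, div_mul_cancel₀ _ (hLr i).ne']
  have hRr1 : ∀ i, Rr i ≤ 1 := by
    intro i
    by_contra hcon
    push Not at hcon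
    have h1 : 1 < Rr i ^ d := one_lt_pow₀ hcon (by omega)
    rw [hRrd, lt_div_iff₀ (hLr i)] at h1
    have h2 : (1 : ℝ) ≤ (L ^ i : ℕ) := by exact_mod_cast hLi i
    linarith
  set J : ℕ → Finset ℕ := fun i => Ioc (L ^ i) (L ^ (i + 1)) with hJ
  obtain ⟨N, hN⟩ := exists_nat_gt (2 / ε / (1 / 2) ^ L)
  have hN' : 2 / ε < N * (1 / 2) ^ L := by rwa [div_lt_iff₀ (by positivity)] at hN
  have ha : ∀ i, (1 / 2 : ℝ) ^ L ≤ (Pr μ).real (Avoid (J i) (ann D x (Rr i))) := by
    intro i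
    apply avoid_lower hR (hLi i) (hRr0 i) (hRrβ i) hβ3
    rw [hJ]
    simp only [Nat.card_Ioc]
    rw [pow_succ]
    have : L ^ i * L = L * L ^ i := mul_comm _ _
    omega
  have hsum : 2 / ε < ∑ i ∈ range N, (Pr μ).real (Avoid (J i) (ann D x (Rr i))) := by
    refine hN'.trans_le ?_
    calc (N : ℝ) * (1 / 2) ^ L = ∑ i ∈ range N, (1 / 2 : ℝ) ^ L := by simp
      _ ≤ _ := sum_le_sum fun i _ => ha i
  have hsum0 : 0 < ∑ i ∈ range N, (Pr μ).real (Avoid (J i) (ann D x (Rr i))) :=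
    lt_trans (by positivity) hsum
  obtain ⟨M, hM1, hM2, hM3⟩ := second_moment (Pr μ) (I := range N)
    (fun i => Avoid (J i) (ann D x (Rr i))) (fun i => Zbad D d x j (Rr i) s₀ (L ^ i) C)
    (fun i _ => measurableSet_avoid _ (measurableSet_ann hR x _)) (by
      intro i _ i' _ hii
      apply avoid_inter _ (measurableSet_ann hR x _) (measurableSet_ann hR x _)
      rw [Finset.disjoint_left]
      intro k hk hk'
      simp only [hJ, mem_Ioc] at hk hk'
      rcases Nat.lt_or_gt_of_ne hii with h | h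
      · have := Nat.pow_le_pow_right (show 0 < L by omega) (show i + 1 ≤ i' by omega)
        omega
      · have := Nat.pow_le_pow_right (show 0 < L by omega) (show i' + 1 ≤ i by omega)
        omega)
    (η := ε / 4) (by
      intro i _
      have h1 := hK x j s₀ (L ^ i) (Rr i) hj (hLi i) hs (hRr0 i) (hRr1 i) (hRrβ i)
      rw [hT1 i] at h1
      refine h1.trans ?_
      apply mul_le_mul_of_nonneg_right _ measureReal_nonneg
      linarith) hsum0
  refine ⟨M, hM1, ?_, ?_⟩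
  · have h1 : 1 / (∑ i ∈ range N, (Pr μ).real (Avoid (J i) (ann D x (Rr i)))) ≤ ε / 2 := by
      rw [div_le_iff₀ hsum0]
      rw [div_lt_iff₀ hε] at hsum
      linarith
    linarith
  · intro ω hω
    have h1 := hM2 hω
    simp only [Set.mem_iUnion] at h1
    obtain ⟨i, hi, h1⟩ := h1
    refine ⟨Rr i / 4, by have := hRr0 i; positivity, fun u hu => ?_⟩
    refine trial_success hR hj (hLi i) hs (hRr0 i) (by omega : 4 * C ≤ s₀) (ω := ω) ?_ u hu
    rw [hT1 i]
    exact h1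

/-- the class of `j` contains a ball around `ω j` -/
def Alive (D : X → X → ℝ) (j : ℕ) (ω : ℕ → X) : Prop :=
  ∃ n : ℕ, ∀ u, D (ω j) (ω u) ≤ 1 / (n + 1) → cls (par D ω) u = j

theorem measurableSet_alive {D : X → X → ℝ} (hD : Measurable (fun p : X × X => D p.1 p.2)) (j : ℕ) :
    MeasurableSet {ω : ℕ → X | Alive D j ω} := by
  have : {ω : ℕ → X | Alive D j ω} = ⋃ n : ℕ, ⋂ u : ℕ,
      ({ω : ℕ → X | D (ω j) (ω u) ≤ 1 / (n + 1)}ᶜ ∪ {ω | cls (par D ω) u = j}) := by
    ext ω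
    simp only [Alive, Set.mem_ofPred_eq, Set.mem_iUnion, Set.mem_iInter, Set.mem_union,
      Set.mem_compl_iff]
    constructor
    · rintro ⟨n, h⟩
      exact ⟨n, fun u => or_iff_not_imp_left.2 fun hu => h u (not_not.1 hu)⟩
    · rintro ⟨n, h⟩
      refine ⟨n, fun u hu => ?_⟩
      rcases h u with h | h
      · exact absurd hu h
      · exact h
  rw [this]
  refine MeasurableSet.iUnion fun n => MeasurableSet.iInter fun u => ?_
  exact (measurableSet_le (measD hD _ _) measurable_const).compl.union (measurableSet_cls hD u j)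

theorem alive_update (hR : Reg μ D d c₁ c₂) (x : X) {j : ℕ} (hj : j < 2) :
    (Pr μ) {ω | ¬ Alive D j (Function.update ω j x)} = 0 := by
  by_contra hne
  have hpos : 0 < (Pr μ).real {ω | ¬ Alive D j (Function.update ω j x)} := by
    unfold Measure.real
    exact ENNReal.toReal_pos hne (measure_ne_top _ _)
  set ε := (Pr μ).real {ω | ¬ Alive D j (Function.update ω j x)} / 2 with hε
  obtain ⟨M, hM1, hM2, hM3⟩ := local_meas (μ := μ) hR x hj (ε := ε) (by positivity)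
  have h1 : {ω | ¬ Alive D j (Function.update ω j x)} ⊆ Mᶜ := by
    intro ω hω hM
    apply hω
    obtain ⟨r, hr, h⟩ := hM3 ω hM
    obtain ⟨n, hn⟩ := exists_nat_one_div_lt hr
    refine ⟨n, fun u hu => h u ?_⟩
    rw [Function.update_self] at hu
    linarith
  have h2 := measureReal_mono (μ := Pr μ) h1 (measure_ne_top _ _)
  rw [measureReal_compl hM1, probReal_univ] at h2
  linarith

theorem alive_ae (hR : Reg μ D d c₁ c₂) {j : ℕ} (hj : j < 2) : ∀ᵐ ω ∂(Pr μ), Alive D j ω := by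
  rw [ae_iff]
  have hm : MeasurableSet {ω : ℕ → X | ¬ Alive D j ω} := (measurableSet_alive hR.meas j).compl
  rw [← (resample μ j).measure_preimage hm.nullMeasurableSet,
    Measure.prod_apply_symm (measurable_upd j hm), lintegral_eq_zero_iff']
  · refine Filter.Eventually.of_forall fun x => ?_
    exact alive_update hR x hj
  · exact (measurable_measure_prodMk_right (measurable_upd j hm)).aemeasurable

end Pool.Agent.Helper40K9.RF
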