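import Pool.Agent.Helper40K9.RF.Global

set_option autoImplicit false
set_option linter.unusedVariables false
set_option linter.unusedSectionVars false

/-! The uniform statement. -/

namespace Pool.Agent.Helper40K9.RF

open Finset MeasureTheory Filter Topology

theorem exists_prob {Ω : Type*} [MeasurableSpace Ω] (P : Measure Ω) [IsProbabilityMeasure P]
    (S : ℕ → Set Ω) (hmono : Monotone S) (hae : ∀ᵐ ω ∂P, ∃ m, ω ∈ S m) {ε : ℝ} (hε : 0 < ε) :
    ∃ m, 1 - ε ≤ P.real (S m) := by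
  have h1 := tendsto_measure_iUnion_atTop (μ := P) hmono
  have h2 : P (⋃ n, S n) = 1 := by
    rw [← measure_univ (μ := P)]
    apply measure_congr
    filter_upwards [hae] with ω hω
    obtain ⟨m, hm⟩ := hω
    apply propext
    constructor
    · intro _
      trivial
    · intro _
      exact Set.mem_iUnion.2 ⟨m, hm⟩
  rw [h2] at h1
  have h3 : Tendsto (fun m => P.real (S m)) atTop (𝓝 1) := by
    have := (ENNReal.tendsto_toReal ENNReal.one_ne_top).comp h1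
    rw [ENNReal.toReal_one] at this
    exact this
  have h4 := h3.eventually_const_le (show 1 - ε < 1 by linarith)
  obtain ⟨m, hm⟩ := h4.exists
  exact ⟨m, hm⟩

variable {X : Type*} [MeasurableSpace X]
variable {μ : Measure X} [IsProbabilityMeasure μ] {D : X → X → ℝ} {d : ℕ} {c₁ c₂ : ℝ}

theorem measurableSet_S (hD : Measurable (fun p : X × X => D p.1 p.2)) (m : ℕ) :
    MeasurableSet {ω : ℕ → X | ∀ n, 2 ≤ n → ∀ j < 2, (1 / (m + 1 : ℝ)) * n ≤ clsN (par D ω) n j} := by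
  have : {ω : ℕ → X | ∀ n, 2 ≤ n → ∀ j < 2, (1 / (m + 1 : ℝ)) * n ≤ clsN (par D ω) n j} =
      ⋂ n : ℕ, ⋂ _ : 2 ≤ n, ⋂ j : ℕ, ⋂ _ : j < 2,
        {ω : ℕ → X | (1 / (m + 1 : ℝ)) * n ≤ clsN (par D ω) n j} := by
    ext ω
    simp only [Set.mem_ofPred_eq, Set.mem_iInter]
  rw [this]
  refine MeasurableSet.iInter fun n => MeasurableSet.iInter fun _ => MeasurableSet.iInter fun j =>
    MeasurableSet.iInter fun _ => measurableSet_le measurable_const ?_
  exact measurable_from_top.comp (measurable_clsN hD n j)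

theorem measurableSet_S' (hD : Measurable (fun p : X × X => D p.1 p.2)) (δ : ℝ) (K : ℕ) :
    MeasurableSet {ω : ℕ → X | ∀ i, K ≤ i → ∀ n, i < n → (descN (par D ω) n i : ℝ) < δ * n} := by
  have : {ω : ℕ → X | ∀ i, K ≤ i → ∀ n, i < n → (descN (par D ω) n i : ℝ) < δ * n} =
      ⋂ i : ℕ, ⋂ _ : K ≤ i, ⋂ n : ℕ, ⋂ _ : i < n,
        {ω : ℕ → X | (descN (par D ω) n i : ℝ) < δ * n} := by
    ext ω
    simp only [Set.mem_ofPred_eq, Set.mem_iInter]
  rw [this]
  refine MeasurableSet.iInter fun n => MeasurableSet.iInter fun _ => MeasurableSet.iInter fun j =>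
    MeasurableSet.iInter fun _ => measurableSet_lt ?_ measurable_const
  exact measurable_from_top.comp (measurable_descN hD _ _)

/-- the uniform event -/
theorem uniform_event (hR : Reg μ D d c₁ c₂) {ε : ℝ} (hε : 0 < ε) :
    ∃ (δ : ℝ) (K : ℕ) (E : Set (ℕ → X)), 0 < δ ∧ 1 ≤ K ∧ MeasurableSet E ∧
      1 - ε ≤ (Pr μ).real E ∧ ∀ ω ∈ E,
        (∀ n, 2 ≤ n → ∀ j < 2, δ * n ≤ clsN (par D ω) n j) ∧
        (∀ i, K ≤ i → ∀ n, i < n → (descN (par D ω) n i : ℝ) < δ * n) := by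
  have hε2 : 0 < ε / 2 := by linarith
  obtain ⟨m, hm⟩ := exists_prob (Pr μ) (fun m : ℕ => {ω : ℕ → X | ∀ n, 2 ≤ n → ∀ j < 2,
    (1 / (m + 1 : ℝ)) * n ≤ clsN (par D ω) n j}) (by
      intro a b hab ω hω n hn j hj
      refine le_trans ?_ (hω n hn j hj)
      apply mul_le_mul_of_nonneg_right _ (by positivity)
      apply one_div_le_one_div_of_le (by positivity)
      have : (a : ℝ) ≤ b := by exact_mod_cast hab
      linarith) (large_cls (μ := μ) hR) hε2
  have hδ : (0 : ℝ) < 1 / (m + 1 : ℝ) := by positivity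
  obtain ⟨K, hK⟩ := exists_prob (Pr μ) (fun K : ℕ => {ω : ℕ → X | ∀ i, K ≤ i → ∀ n, i < n →
    (descN (par D ω) n i : ℝ) < (1 / (m + 1 : ℝ)) * n}) (by
      intro a b hab ω hω i hi n hn
      exact hω i (le_trans hab hi) n hn) (few_desc (μ := μ) hR hδ) hε2
  refine ⟨1 / (m + 1 : ℝ), K + 1, _, hδ, by omega, (measurableSet_S hR.meas m).inter
    (measurableSet_S' hR.meas (1 / (m + 1 : ℝ)) K), ?_, ?_⟩
  · have h1 := measurableSet_S (X := X) hR.meas m
    have h2 := measurableSet_S' (X := X) hR.meas (1 / (m + 1 : ℝ)) K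
    have h3 := measureReal_union_add_inter (μ := Pr μ) (s := {ω : ℕ → X | ∀ n, 2 ≤ n → ∀ j < 2,
      (1 / (m + 1 : ℝ)) * n ≤ clsN (par D ω) n j}) h2
    have h4 : (Pr μ).real ({ω : ℕ → X | ∀ n, 2 ≤ n → ∀ j < 2,
      (1 / (m + 1 : ℝ)) * n ≤ clsN (par D ω) n j} ∪ {ω : ℕ → X | ∀ i, K ≤ i → ∀ n, i < n →
      (descN (par D ω) n i : ℝ) < (1 / (m + 1 : ℝ)) * n}) ≤ 1 := measureReal_le_one
    linarith
  · rintro ω ⟨h1, h2⟩
    exact ⟨h1, fun i hi n hn => h2 i (by omega) n hn⟩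

/-- the rule succeeds uniformly -/
theorem uniform_rule (hR : Reg μ D d c₁ c₂) {ε : ℝ} (hε : 0 < ε) :
    ∃ (δ : ℝ) (K : ℕ), ∀ n : ℕ, 1 - ε ≤
      (Pr μ).real {ω | ∀ v : Fin n, v.1 = 0 → v ∈ rule δ K n (tree (par D ω) n)} := by
  obtain ⟨δ, K, E, hδ, hK, hE, hE1, hE2⟩ := uniform_event (μ := μ) hR hε
  refine ⟨δ, K, fun n => hE1.trans (measureReal_mono ?_ (measure_ne_top _ _))⟩
  intro ω hω v hv
  obtain ⟨h1, h2⟩ := hE2 ω hω
  exact root_mem_rule (par_lt D ω) hK hv (fun hn j hj => h1 n hn j hj) (fun i hi hin => h2 i hi n hin)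

end Pool.Agent.Helper40K9.RF
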