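import Pool.Agent.Helper40K9.RF.Union

set_option autoImplicit false
set_option linter.unusedVariables false
set_option linter.unusedSectionVars false

/-! Measurability, and a second moment inequality. -/

namespace Pool.Agent.Helper40K9.RF

open Finset MeasureTheory

variable {X : Type*} [MeasurableSpace X]

section

variable {D : X → X → ℝ} (hD : Measurable (fun p : X × X => D p.1 p.2))
include hD

theorem measurableSet_near (i k : ℕ) : MeasurableSet {ω : ℕ → X | IsNear D ω i k} := by
  by_cases h : k < i
  · have : {ω : ℕ → X | IsNear D ω i k} =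
        ⋂ k' ∈ range i, {ω : ℕ → X | D (ω i) (ω k) ≤ D (ω i) (ω k')} := by
      ext ω
      simp [IsNear, h]
    rw [this]
    exact (range i).measurableSet_biInter fun k' _ => measurableSet_le (measD hD _ _) (measD hD _ _)
  · have : {ω : ℕ → X | IsNear D ω i k} = ∅ := by
      ext ω
      simp [IsNear, h]
    rw [this]
    exact MeasurableSet.empty

theorem measurableSet_par (i k : ℕ) : MeasurableSet {ω : ℕ → X | par D ω i = k} := by
  by_cases hi : 1 ≤ i
  · have : {ω : ℕ → X | par D ω i = k} = {ω | IsNear D ω i k} ∩
        ⋂ k' ∈ range k, {ω | IsNear D ω i k'}ᶜ := by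
      ext ω
      simp only [Set.mem_ofPred_eq, Set.mem_inter_iff, Set.mem_iInter, mem_range, Set.mem_compl_iff]
      constructor
      · rintro rfl
        refine ⟨par_near D ω hi, fun k' hk' hn => ?_⟩
        have := par_min D ω hn
        omega
      · rintro ⟨h1, h2⟩
        have h3 := par_min D ω h1
        by_contra hne
        exact h2 _ (by omega) (par_near D ω hi)
    rw [this]
    exact (measurableSet_near hD i k).inter ((range k).measurableSet_biInter fun k' _ =>
      (measurableSet_near hD i k').compl)
  · have hi0 : i = 0 := by omega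
    subst hi0
    have : ∀ ω : ℕ → X, par D ω 0 = 0 := by
      intro ω
      have : ¬ ∃ j, IsNear D ω 0 j := by
        rintro ⟨j, hj⟩
        exact absurd hj.1 (by omega)
      unfold par
      rw [dif_neg this]
    simp only [this]
    exact MeasurableSet.const _

theorem measurableSet_cls (u c : ℕ) : MeasurableSet {ω : ℕ → X | cls (par D ω) u = c} := by
  induction u using Nat.strong_induction_on generalizing c with
  | _ u ih =>
    by_cases hu : 2 ≤ u
    · have : {ω : ℕ → X | cls (par D ω) u = c} =
          ⋃ v ∈ range u, ({ω | par D ω u = v} ∩ {ω | cls (par D ω) v = c}) := by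
        ext ω
        simp only [Set.mem_ofPred_eq, Set.mem_iUnion, mem_range, Set.mem_inter_iff]
        constructor
        · intro h
          refine ⟨par D ω u, par_lt D ω u (by omega), rfl, ?_⟩
          rw [← cls_par hu]
          exact h
        · rintro ⟨v, hv, rfl, h⟩
          rw [cls_par hu]
          exact h
      rw [this]
      refine (range u).measurableSet_biUnion fun v hv => ?_
      exact (measurableSet_par hD u v).inter (ih v (mem_range.1 hv) c)
    · have : ∀ ω : ℕ → X, cls (par D ω) u = u := fun ω => cls_lt_two _ (by omega)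
      simp only [this]
      exact MeasurableSet.const _

theorem desc_zero (ω : ℕ → X) (i : ℕ) : IsDesc (par D ω) i 0 ↔ i = 0 := by
  have h0 : par D ω 0 = 0 := by
    have : ¬ ∃ j, IsNear D ω 0 j := by
      rintro ⟨j, hj⟩
      exact absurd hj.1 (by omega)
    unfold par
    rw [dif_neg this]
  constructor
  · rintro ⟨s, hs⟩
    have : ∀ s, (par D ω)^[s] 0 = 0 := by
      intro s
      induction s with
      | zero => rfl
      | succ s ih => rw [Function.iterate_succ_apply, h0]; exact ih
    rw [this] at hs
    exact hs.symm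
  · rintro rfl
    exact ⟨0, rfl⟩

theorem measurableSet_desc (i u : ℕ) : MeasurableSet {ω : ℕ → X | IsDesc (par D ω) i u} := by
  induction u using Nat.strong_induction_on with
  | _ u ih =>
    by_cases hui : u = i
    · have : {ω : ℕ → X | IsDesc (par D ω) i u} = Set.univ := by
        ext ω
        simp only [Set.mem_ofPred_eq, Set.mem_univ, iff_true]
        exact ⟨0, hui⟩
      rw [this]
      exact MeasurableSet.univ
    · by_cases hu : u = 0
      · subst hu
        simp only [desc_zero hD]
        exact MeasurableSet.const _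
      · have : {ω : ℕ → X | IsDesc (par D ω) i u} =
            ⋃ v ∈ range u, ({ω | par D ω u = v} ∩ {ω | IsDesc (par D ω) i v}) := by
          ext ω
          simp only [Set.mem_ofPred_eq, Set.mem_iUnion, mem_range, Set.mem_inter_iff]
          constructor
          · rintro ⟨s, hs⟩
            cases s with
            | zero => exact absurd hs hui
            | succ s =>
              refine ⟨par D ω u, par_lt D ω u (by omega), rfl, s, ?_⟩
              rw [Function.iterate_succ_apply] at hs
              exact hs
          · rintro ⟨v, hv, rfl, s, hs⟩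
            exact ⟨s + 1, by rw [Function.iterate_succ_apply]; exact hs⟩
        rw [this]
        refine (range u).measurableSet_biUnion fun v hv => ?_
        exact (measurableSet_par hD u v).inter (ih v (mem_range.1 hv))

theorem measurable_clsN (n c : ℕ) : Measurable fun ω : ℕ → X => clsN (par D ω) n c := by
  unfold clsN
  simp only [card_filter]
  refine Finset.measurable_sum _ fun u _ => ?_
  exact Measurable.ite (measurableSet_cls hD u c) measurable_const measurable_const

theorem measurable_descN (n i : ℕ) : Measurable fun ω : ℕ → X => descN (par D ω) n i := by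
  classical
  unfold descN
  simp only [card_filter]
  refine Finset.measurable_sum _ fun u _ => ?_
  exact Measurable.ite (measurableSet_desc hD i u) measurable_const measurable_const

end

section SecondMoment

variable {Ω : Type*} [MeasurableSpace Ω] (P : Measure Ω) [IsProbabilityMeasure P]

/-- a second moment lower bound -/
theorem second_moment {I : Finset ℕ} (A : ℕ → Set Ω) (Z : ℕ → Set Ω)
    (hA : ∀ i ∈ I, MeasurableSet (A i))
    (hind : ∀ i ∈ I, ∀ j ∈ I, i ≠ j → P.real (A i ∩ A j) = P.real (A i) * P.real (A j))
    {η : ℝ} (hZ : ∀ i ∈ I, P.real (A i ∩ Z i) ≤ η * P.real (A i))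
    (hm : 0 < ∑ i ∈ I, P.real (A i)) :
    ∃ M : Set Ω, MeasurableSet M ∧ M ⊆ ⋃ i ∈ I, (A i \ Z i) ∧
      1 - 2 * η - 1 / (∑ i ∈ I, P.real (A i)) ≤ P.real M := by
  classical
  set m := ∑ i ∈ I, P.real (A i) with hmdef
  set E : ℕ → Set Ω := fun i => A i \ toMeasurable P (A i ∩ Z i) with hE
  have hEm : ∀ i ∈ I, MeasurableSet (E i) := fun i hi =>
    (hA i hi).diff (measurableSet_toMeasurable _ _)
  have hEA : ∀ i, E i ⊆ A i := fun i => Set.sdiff_subset
  have hEr : ∀ i ∈ I, (1 - η) * P.real (A i) ≤ P.real (E i) := by
    intro i hi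
    have h1 : P.real (A i) ≤ P.real (E i) + P.real (toMeasurable P (A i ∩ Z i)) := by
      refine (measureReal_mono (s₂ := E i ∪ toMeasurable P (A i ∩ Z i)) ?_
        (measure_ne_top _ _)).trans (measureReal_union_le _ _)
      intro x hx
      by_cases h : x ∈ toMeasurable P (A i ∩ Z i)
      · exact Or.inr h
      · exact Or.inl ⟨hx, h⟩
    have h2 : P.real (toMeasurable P (A i ∩ Z i)) = P.real (A i ∩ Z i) := by
      unfold Measure.real
      rw [measure_toMeasurable]
    have h3 := hZ i hi
    linarith
  refine ⟨⋃ i ∈ I, E i, I.measurableSet_biUnion hEm, ?_, ?_⟩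
  · intro x hx
    simp only [Set.mem_iUnion] at hx ⊢
    obtain ⟨i, hi, hx⟩ := hx
    refine ⟨i, hi, hx.1, fun hz => hx.2 ?_⟩
    exact subset_toMeasurable P _ ⟨hx.1, hz⟩
  · have hint : ∀ S : Set Ω, MeasurableSet S →
        Integrable (S.indicator fun _ => (1 : ℝ)) P := fun S hS =>
      (integrable_const 1).indicator hS
    have hval : ∀ S : Set Ω, MeasurableSet S →
        ∫ x, S.indicator (fun _ => (1 : ℝ)) x ∂P = P.real S := by
      intro S hS
      rw [integral_indicator hS]
      simp
    have hpt : ∀ x, 2 * m * (∑ i ∈ I, (E i).indicator (fun _ => (1 : ℝ)) x) -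
        ∑ i ∈ I, ∑ j ∈ I, (E i ∩ E j).indicator (fun _ => (1 : ℝ)) x ≤
        m ^ 2 * (⋃ i ∈ I, E i).indicator (fun _ => (1 : ℝ)) x := by
      intro x
      set S := ∑ i ∈ I, (E i).indicator (fun _ => (1 : ℝ)) x with hS
      have h1 : ∑ i ∈ I, ∑ j ∈ I, (E i ∩ E j).indicator (fun _ => (1 : ℝ)) x = S ^ 2 := by
        rw [hS, sq, sum_mul_sum]
        refine sum_congr rfl fun i _ => sum_congr rfl fun j _ => ?_
        by_cases hi : x ∈ E i <;> by_cases hj : x ∈ E j <;> simp [hi, hj]
      rw [h1]
      by_cases hx : x ∈ ⋃ i ∈ I, E i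
      · rw [Set.indicator_of_mem hx]
        nlinarith [sq_nonneg (m - S)]
      · have h2 : S = 0 := by
          rw [hS]
          refine sum_eq_zero fun i hi => ?_
          rw [Set.indicator_of_notMem]
          intro hxi
          apply hx
          simp only [Set.mem_iUnion]
          exact ⟨i, hi, hxi⟩
        rw [h2, Set.indicator_of_notMem hx]
        simp
    have h2 : 2 * m * (∑ i ∈ I, P.real (E i)) - ∑ i ∈ I, ∑ j ∈ I, P.real (E i ∩ E j) ≤
        m ^ 2 * P.real (⋃ i ∈ I, E i) := by
      have h3 := integral_mono (μ := P)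
        (f := fun x => 2 * m * (∑ i ∈ I, (E i).indicator (fun _ => (1 : ℝ)) x) -
          ∑ i ∈ I, ∑ j ∈ I, (E i ∩ E j).indicator (fun _ => (1 : ℝ)) x)
        (g := fun x => m ^ 2 * (⋃ i ∈ I, E i).indicator (fun _ => (1 : ℝ)) x) ?_ ?_ hpt
      · rw [integral_sub, integral_const_mul, integral_const_mul, integral_finsetSum,
          integral_finsetSum, hval _ (I.measurableSet_biUnion hEm)] at h3
        · rw [sum_congr rfl fun i hi => hval (E i) (hEm i hi)] at h3
          have h4 : ∑ i ∈ I, ∫ x, ∑ j ∈ I, (E i ∩ E j).indicator (fun _ => (1 : ℝ)) x ∂P =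
              ∑ i ∈ I, ∑ j ∈ I, P.real (E i ∩ E j) := by
            refine sum_congr rfl fun i hi => ?_
            rw [integral_finsetSum _ fun j hj => hint _ ((hEm i hi).inter (hEm j hj))]
            exact sum_congr rfl fun j hj => hval _ ((hEm i hi).inter (hEm j hj))
          rw [h4] at h3
          exact h3
        · exact fun i hi => integrable_finsetSum _ fun j hj => hint _ ((hEm i hi).inter (hEm j hj))
        · exact fun i hi => hint _ (hEm i hi)
        · exact (integrable_finsetSum _ fun i hi => hint _ (hEm i hi)).const_mul _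
        · exact integrable_finsetSum _ fun i hi => integrable_finsetSum _ fun j hj =>
            hint _ ((hEm i hi).inter (hEm j hj))
      · exact ((integrable_finsetSum _ fun i hi => hint _ (hEm i hi)).const_mul _).sub
          (integrable_finsetSum _ fun i hi => integrable_finsetSum _ fun j hj =>
            hint _ ((hEm i hi).inter (hEm j hj)))
      · exact (hint _ (I.measurableSet_biUnion hEm)).const_mul _
    have h3 : (1 - η) * m ≤ ∑ i ∈ I, P.real (E i) := by
      rw [hmdef, mul_sum]
      exact sum_le_sum hEr
    have h4 : ∑ i ∈ I, ∑ j ∈ I, P.real (E i ∩ E j) ≤ m ^ 2 + m := by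
      have h5 : ∀ i ∈ I, ∑ j ∈ I, P.real (E i ∩ E j) ≤ P.real (A i) * m + P.real (A i) := by
        intro i hi
        rw [hmdef, mul_sum, ← add_sum_erase I _ hi, ← add_sum_erase I (fun j => P.real (A i) *
          P.real (A j)) hi]
        have h6 : P.real (E i ∩ E i) ≤ P.real (A i) :=
          measureReal_mono (Set.inter_subset_left.trans (hEA i)) (measure_ne_top _ _)
        have h7 : ∑ j ∈ I.erase i, P.real (E i ∩ E j) ≤
            ∑ j ∈ I.erase i, P.real (A i) * P.real (A j) := by
          refine sum_le_sum fun j hj => ?_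
          rw [mem_erase] at hj
          rw [← hind i hi j hj.2 (Ne.symm hj.1)]
          exact measureReal_mono (Set.inter_subset_inter (hEA i) (hEA j)) (measure_ne_top _ _)
        have h8 : 0 ≤ P.real (A i) * P.real (A i) := by positivity
        linarith
      refine (sum_le_sum h5).trans (le_of_eq ?_)
      rw [sum_add_distrib, ← sum_mul, sq]
    have h5 : m ^ 2 * (1 - 2 * η - 1 / m) ≤ m ^ 2 * P.real (⋃ i ∈ I, E i) := by
      have h6 : m ^ 2 * (1 / m) = m := by field_simp
      have h7 : 2 * m * ((1 - η) * m) ≤ 2 * m * (∑ i ∈ I, P.real (E i)) :=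
        mul_le_mul_of_nonneg_left h3 (by positivity)
      nlinarith
    exact le_of_mul_le_mul_left h5 (by positivity)

end SecondMoment

section

variable {μ : Measure X} [IsProbabilityMeasure μ]

theorem avoid_inter {J J' : Finset ℕ} (hJ : Disjoint J J') {B B' : Set X} (hB : MeasurableSet B)
    (hB' : MeasurableSet B') : (Pr μ).real (Avoid J B ∩ Avoid J' B') =
      (Pr μ).real (Avoid J B) * (Pr μ).real (Avoid J' B') := by
  classical
  have h1 : Avoid J B ∩ Avoid J' B' =
      {ω : ℕ → X | ∀ i ∈ J ∪ J', ω i ∈ (if i ∈ J then Bᶜ else B'ᶜ)} := by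
    ext ω
    simp only [Avoid, Set.mem_inter_iff, Set.mem_ofPred_eq, mem_union]
    constructor
    · rintro ⟨h1, h2⟩ i hi
      split_ifs with h
      · exact h1 i h
      · exact h2 i (by tauto)
    · intro h
      refine ⟨fun i hi => ?_, fun i hi => ?_⟩
      · have := h i (Or.inl hi)
        rwa [if_pos hi] at this
      · have := h i (Or.inr hi)
        rwa [if_neg (fun hJi => (Finset.disjoint_left.1 hJ) hJi hi)] at this
  rw [h1, box_real μ _ _ (fun i _ => by split_ifs; exacts [hB.compl, hB'.compl]),
    avoid_real J hB, avoid_real J' hB', prod_union hJ]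
  congr 1
  · rw [prod_congr rfl (g := fun _ => 1 - μ.real B)]
    · simp
    · intro i hi
      rw [if_pos hi, measureReal_compl hB, probReal_univ]
  · rw [prod_congr rfl (g := fun _ => 1 - μ.real B')]
    · simp
    · intro i hi
      rw [if_neg (fun hJi => (Finset.disjoint_left.1 hJ) hJi hi), measureReal_compl hB',
        probReal_univ]

end

end Pool.Agent.Helper40K9.RF
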