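import Pool.Agent.Helper40K9.RF.Tree

set_option autoImplicit false
set_option linter.unusedVariables false
set_option linter.unusedSectionVars false

/-! Nearest neighbour parents: deterministic statements. -/

namespace Pool.Agent.Helper40K9.RF

open Finset

variable {X : Type*} (D : X → X → ℝ)

/-- `j < i` and `ω j` is nearest to `ω i` among `ω 0, …, ω (i - 1)` -/
def IsNear (ω : ℕ → X) (i j : ℕ) : Prop := j < i ∧ ∀ k < i, D (ω i) (ω j) ≤ D (ω i) (ω k)

open Classical in
/-- the parent of `i` (`0` for `i = 0`) -/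
noncomputable def par (ω : ℕ → X) (i : ℕ) : ℕ :=
  if h : ∃ j, IsNear D ω i j then Nat.find h else 0

theorem exists_near (ω : ℕ → X) {i : ℕ} (hi : 1 ≤ i) : ∃ j, IsNear D ω i j := by
  obtain ⟨j, hj, h⟩ := exists_min_image (range i) (fun j => D (ω i) (ω j)) ⟨0, by simp; omega⟩
  exact ⟨j, mem_range.1 hj, fun k hk => h k (mem_range.2 hk)⟩

theorem par_near (ω : ℕ → X) {i : ℕ} (hi : 1 ≤ i) : IsNear D ω i (par D ω i) := by
  classical
  have h := exists_near D ω hi
  unfold par
  rw [dif_pos h]
  exact Nat.find_spec h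

theorem par_min (ω : ℕ → X) {i k : ℕ} (hk : IsNear D ω i k) : par D ω i ≤ k := by
  classical
  have h : ∃ j, IsNear D ω i j := ⟨k, hk⟩
  unfold par
  rw [dif_pos h]
  exact Nat.find_min' h hk

theorem par_lt (ω : ℕ → X) (i : ℕ) (hi : 1 ≤ i) : par D ω i < i := (par_near D ω hi).1

theorem par_le (ω : ℕ → X) {i k : ℕ} (hk : k < i) : D (ω i) (ω (par D ω i)) ≤ D (ω i) (ω k) :=
  (par_near D ω (by omega)).2 k hk

/-- every point of `A` is within `h` of a point `ω i`, `i ∈ I` -/
def Cov (ω : ℕ → X) (A : Set X) (I : Finset ℕ) (h : ℝ) : Prop := ∀ a ∈ A, ∃ i ∈ I, D a (ω i) ≤ h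

/-- there is a chain of `m + 1` decreasing indices in `I` with steps at most `h`, starting in `A` -/
def Chain (ω : ℕ → X) (A : Set X) (I : Finset ℕ) (h : ℝ) (m : ℕ) : Prop :=
  ∃ e : ℕ → ℕ, (∀ a < m, e (a + 1) < e a) ∧ (∀ a ≤ m, e a ∈ I) ∧ ω (e 0) ∈ A ∧
    ∀ a < m, D (ω (e a)) (ω (e (a + 1))) ≤ h

variable {D} (hself : ∀ x, D x x = 0) (hsymm : ∀ x y, D x y = D y x)
  (htri : ∀ x y z, D x z ≤ D x y + D y z)

section Block

variable {ω : ℕ → X} {A : Set X} {T : ℕ → ℕ} {h : ℕ → ℝ} {m : ℕ → ℕ}

theorem iter_le (u a b : ℕ) (hab : a ≤ b) : (par D ω)^[b] u ≤ (par D ω)^[a] u := by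
  obtain ⟨c, rfl⟩ := Nat.exists_eq_add_of_le' hab
  clear hab
  rw [Function.iterate_add_apply]
  generalize (par D ω)^[a] u = v
  clear u
  induction c generalizing v with
  | zero => exact le_rfl
  | succ c ih =>
    rw [Function.iterate_succ_apply]
    refine (ih _).trans ?_
    by_cases hv : 1 ≤ v
    · exact (par_lt D ω v hv).le
    · have hv0 : v = 0 := by omega
      subst hv0
      have : ¬ ∃ j, IsNear D ω 0 j := by
        rintro ⟨j, hj⟩
        exact absurd hj.1 (by omega)
      unfold par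
      rw [dif_neg this]

include hself htri in
theorem one_block {k : ℕ} (hh : 0 ≤ h k) (hcov : Cov D ω A (Ioc (T (k - 1)) (T k)) (h k))
    (hch : ¬ Chain D ω A (Ioc (T k) (T (k + 1))) (h k) (m k)) {u : ℕ}
    (hu : u ∈ Ioc (T k) (T (k + 1))) (hA : ∀ y, D (ω u) y ≤ m k * h k → y ∈ A) :
    ∃ a, 1 ≤ a ∧ a ≤ m k ∧ (par D ω)^[a] u ≤ T k ∧
      ∀ b ≤ a, D (ω u) (ω ((par D ω)^[b] u)) ≤ b * h k := by
  rw [mem_Ioc] at hu
  have key : ∀ b ≤ m k, (∀ b' < b, T k < (par D ω)^[b'] u) →
      D (ω u) (ω ((par D ω)^[b] u)) ≤ b * h k := by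
    intro b
    induction b with
    | zero => intro _ _; simp [hself]
    | succ b ih =>
      intro hb hb'
      have h1 := ih (by omega) fun b' h' => hb' b' (by omega)
      have h2 := hb' b (by omega)
      have h3 : ω ((par D ω)^[b] u) ∈ A := by
        apply hA
        refine h1.trans ?_
        exact mul_le_mul_of_nonneg_right (by exact_mod_cast (by omega : b ≤ m k)) hh
      obtain ⟨i, hi, hi2⟩ := hcov _ h3
      rw [mem_Ioc] at hi
      have h4 := par_le D ω (i := (par D ω)^[b] u) (k := i) (by omega)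
      rw [Function.iterate_succ_apply']
      refine (htri _ (ω ((par D ω)^[b] u)) _).trans ?_
      push_cast
      linarith
  have hex : ∃ b, b ≤ m k ∧ (par D ω)^[b] u ≤ T k := by
    by_contra hcon
    push Not at hcon
    apply hch
    refine ⟨fun b => (par D ω)^[b] u, ?_, ?_, ?_, ?_⟩
    · intro a ha
      have := hcon a (by omega)
      simp only [Function.iterate_succ_apply']
      exact par_lt D ω _ (by omega)
    · intro a ha
      rw [mem_Ioc]
      refine ⟨hcon a ha, ?_⟩
      have := iter_le (D := D) (ω := ω) u 0 a (by omega)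
      simp only [Function.iterate_zero, id] at this
      exact this.trans hu.2
    · apply hA
      simp only [Function.iterate_zero, id, hself]
      positivity
    · intro a ha
      have h1 := key a (by omega) fun b' h' => hcon b' (by omega)
      have h3 : ω ((par D ω)^[a] u) ∈ A := by
        apply hA
        refine h1.trans ?_
        exact mul_le_mul_of_nonneg_right (by exact_mod_cast (by omega : a ≤ m k)) hh
      obtain ⟨i, hi, hi2⟩ := hcov _ h3
      rw [mem_Ioc] at hi
      have h4 := par_le D ω (i := (par D ω)^[a] u) (k := i) (by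
        have := hcon a (by omega)
        omega)
      simp only [Function.iterate_succ_apply']
      exact h4.trans hi2
  classical
  have hs := Nat.find_spec hex
  have hm := fun b => Nat.find_min hex (m := b)
  set a := Nat.find hex with ha
  refine ⟨a, ?_, hs.1, hs.2, ?_⟩
  · by_contra h0
    have h0' : a = 0 := by omega
    rw [h0'] at hs
    simp only [Function.iterate_zero, id] at hs
    omega
  · intro b hb
    refine key b (by omega) fun b' hb' => ?_
    by_contra hcon
    exact hm b' (by omega) ⟨by omega, by omega⟩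

theorem find_block (hT : StrictMono T) {k₀ k w : ℕ} (h0 : T k₀ < w) (h1 : w ≤ T k) :
    ∃ l, k₀ ≤ l ∧ l < k ∧ T l < w ∧ w ≤ T (l + 1) := by
  induction k with
  | zero =>
    have := hT.monotone (Nat.zero_le k₀)
    omega
  | succ k ih =>
    by_cases h : w ≤ T k
    · obtain ⟨l, h2, h3, h4⟩ := ih h
      exact ⟨l, h2, by omega, h4⟩
    · refine ⟨k, ?_, by omega, by omega, h1⟩
      by_contra hcon
      have := hT.monotone (show k + 1 ≤ k₀ by omega)
      omega

include hself htri in
theorem disp (hT : StrictMono T) {k₀ : ℕ} (hh : ∀ k, 0 ≤ h k)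
    (hcov : ∀ k, k₀ ≤ k → Cov D ω A (Ioc (T (k - 1)) (T k)) (h k))
    (hch : ∀ k, k₀ ≤ k → ¬ Chain D ω A (Ioc (T k) (T (k + 1))) (h k) (m k)) (k : ℕ) :
    k₀ ≤ k → ∀ u, u ∈ Ioc (T k) (T (k + 1)) →
    (∀ y, D (ω u) y ≤ ∑ l ∈ Icc k₀ k, m l * h l → y ∈ A) → ∀ s,
    (∀ b < s, T k₀ < (par D ω)^[b] u) →
    D (ω u) (ω ((par D ω)^[s] u)) ≤ ∑ l ∈ Icc k₀ k, m l * h l := by
  induction k using Nat.strong_induction_on with
  | _ k ih =>
    intro hk u hu hA s hs
    have hsum : ∑ l ∈ Icc k₀ k, (m l * h l : ℝ) = m k * h k + ∑ l ∈ Ico k₀ k, (m l * h l : ℝ) := by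
      rw [← Finset.Ico_insert_right hk, sum_insert (by simp)]
    have hnn : ∀ l, 0 ≤ (m l * h l : ℝ) := fun l => mul_nonneg (by positivity) (hh l)
    have hsn : 0 ≤ ∑ l ∈ Ico k₀ k, (m l * h l : ℝ) := sum_nonneg fun l _ => hnn l
    obtain ⟨a, ha1, ha2, ha3, ha4⟩ := one_block hself htri (hh k) (hcov k hk) (hch k hk) hu
      (fun y hy => hA y (by linarith))
    have hmk : ∀ b ≤ a, D (ω u) (ω ((par D ω)^[b] u)) ≤ m k * h k := by
      intro b hb
      refine (ha4 b hb).trans ?_
      exact mul_le_mul_of_nonneg_right (by exact_mod_cast (by omega : b ≤ m k)) (hh k)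
    by_cases hsa : s ≤ a
    · have := hmk s hsa
      linarith
    · set w := (par D ω)^[a] u with hw
      have hwk : T k₀ < w := hs a (by omega)
      obtain ⟨l, hl1, hl2, hl3, hl4⟩ := find_block hT hwk ha3
      have hle : ∑ l' ∈ Icc k₀ l, (m l' * h l' : ℝ) ≤ ∑ l' ∈ Ico k₀ k, (m l' * h l' : ℝ) := by
        apply sum_le_sum_of_subset_of_nonneg
        · intro x hx
          rw [mem_Icc] at hx
          rw [mem_Ico]
          omega
        · intro i _ _
          exact hnn i
      have h1 := ih l hl2 hl1 w (mem_Ioc.2 ⟨hl3, hl4⟩) (by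
        intro y hy
        apply hA
        have h2 := hmk a le_rfl
        have h3 := htri (ω u) (ω w) y
        rw [← hw] at h2
        linarith) (s - a) (by
        intro b hb
        have h2 := hs (b + a) (by omega)
        rwa [Function.iterate_add_apply] at h2)
      have h2 : (par D ω)^[s] u = (par D ω)^[s - a] w := by
        rw [hw, ← Function.iterate_add_apply]
        congr 1
        omega
      rw [h2]
      have h3 := hmk a le_rfl
      rw [← hw] at h3
      have h4 := htri (ω u) (ω w) (ω ((par D ω)^[s - a] w))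
      linarith

end Block

section Pure

variable {ω : ℕ → X} {T : ℕ → ℕ} {h : ℕ → ℝ} {m : ℕ → ℕ}

theorem cls_par {u : ℕ} (hu : 2 ≤ u) : cls (par D ω) u = cls (par D ω) (par D ω u) :=
  cls_ge_two _ hu (par_lt D ω u (by omega))

theorem cls_iter {u : ℕ} (s : ℕ) (hs : ∀ b < s, 2 ≤ (par D ω)^[b] u) :
    cls (par D ω) ((par D ω)^[s] u) = cls (par D ω) u := by
  induction s with
  | zero => rfl
  | succ s ih =>
    rw [Function.iterate_succ_apply', ← cls_par (hs s (by omega))]
    exact ih fun b hb => hs b (by omega)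

variable {x : X} {R : ℝ} {t j : ℕ}

include hsymm htri in
/-- purity up to the time `T₁` -/
theorem pure_near (hj : j < 2) (ht : 1 ≤ t) (hx : ω j = x) {T₁ : ℕ}
    (hG : ∀ i ≤ t, i ≠ j → 2 * R < D x (ω i))
    (hAnn : ∀ i ∈ Ioc t T₁, ¬ (R < D x (ω i) ∧ D x (ω i) ≤ 2 * R)) (u : ℕ) :
    u ≤ T₁ → D x (ω u) ≤ R → 0 ≤ R → cls (par D ω) u = j := by
  induction u using Nat.strong_induction_on with
  | _ u ih =>
    intro hu1 hu2 hR
    by_cases hut : u ≤ t
    · by_cases huj : u = j
      · subst huj
        exact cls_lt_two _ hj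
      · have := hG u hut huj
        linarith
    · have h1 : D (ω u) (ω (par D ω u)) ≤ R := by
        have := par_le D ω (i := u) (k := j) (by omega)
        rw [hx, hsymm (ω u) x] at this
        linarith
      have h2 : D x (ω (par D ω u)) ≤ 2 * R := by
        have := htri x (ω u) (ω (par D ω u))
        linarith
      have h3 := par_lt D ω u (by omega)
      rw [cls_par (by omega)]
      by_cases hv : par D ω u ≤ t
      · by_cases hvj : par D ω u = j
        · rw [hvj]
          exact cls_lt_two _ hj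
        · have := hG _ hv hvj
          linarith
      · refine ih _ h3 (by omega) ?_ hR
        by_contra hcon
        exact hAnn (par D ω u) (by rw [mem_Ioc]; omega) ⟨by linarith, h2⟩

include hself hsymm htri in
/-- purity forever -/
theorem pure_all (hj : j < 2) (ht : 1 ≤ t) (hx : ω j = x) (hR : 0 ≤ R) (hT : StrictMono T)
    (hT1 : 1 ≤ T 1)
    (hG : ∀ i ≤ t, i ≠ j → 2 * R < D x (ω i))
    (hAnn : ∀ i ∈ Ioc t (T 1), ¬ (R < D x (ω i) ∧ D x (ω i) ≤ 2 * R)) (hh : ∀ k, 0 ≤ h k)
    (hcov : ∀ k, 1 ≤ k → Cov D ω {y | D x y ≤ R / 2} (Ioc (T (k - 1)) (T k)) (h k))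
    (hch : ∀ k, 1 ≤ k → ¬ Chain D ω {y | D x y ≤ R / 2} (Ioc (T k) (T (k + 1))) (h k) (m k))
    (hsum : ∀ k, ∑ l ∈ Icc 1 k, (m l * h l : ℝ) ≤ R / 4) (u : ℕ)
    (hu2 : D x (ω u) ≤ R / 4) : cls (par D ω) u = j := by
  by_cases hu : u ≤ T 1
  · exact pure_near hsymm htri hj ht hx hG hAnn u hu (by linarith) hR
  · -- find the block of `u`
    have hub : u ≤ T u := hT.le_apply
    obtain ⟨k, hk1, hk2, hk3, hk4⟩ := find_block hT (k₀ := 1) (k := u) (by omega) hub
    -- first iterate at most `T 1`
    have hex : ∃ s, (par D ω)^[s] u ≤ T 1 := by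
      refine ⟨u, ?_⟩
      have : ∀ s, (par D ω)^[s] u ≤ u - s := by
        intro s
        induction s with
        | zero => simp
        | succ s ih =>
          rw [Function.iterate_succ_apply']
          by_cases hz : 1 ≤ (par D ω)^[s] u
          · have := par_lt D ω _ hz
            omega
          · have hz0 : (par D ω)^[s] u = 0 := by omega
            rw [hz0]
            have : ¬ ∃ j, IsNear D ω 0 j := by
              rintro ⟨j, hj⟩
              exact absurd hj.1 (by omega)
            unfold par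
            rw [dif_neg this]
            omega
      have := this u
      omega
    classical
    have hs := Nat.find_spec hex
    have hm := fun b => Nat.find_min hex (m := b)
    set s := Nat.find hex with hsdef
    have hs' : ∀ b < s, T 1 < (par D ω)^[b] u := fun b hb => by
      have := hm b hb
      omega
    have h1 := disp (A := {y | D x y ≤ R / 2}) (m := m) hself htri hT (k₀ := 1) hh hcov hch k hk1 u
      (mem_Ioc.2 ⟨hk3, hk4⟩) (by
        intro y hy
        have h2 := htri x (ω u) y
        have h3 := hsum k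
        simp only [Set.mem_ofPred_eq]
        linarith) s hs'
    have h2 := hsum k
    have h3 := htri x (ω u) (ω ((par D ω)^[s] u))
    have h4 := pure_near hsymm htri hj ht hx hG hAnn ((par D ω)^[s] u) hs (by linarith) hR
    rw [← h4, cls_iter s]
    intro b hb
    have := hs' b hb
    omega

end Pure

end Pool.Agent.Helper40K9.RF
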