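import Pool.Agent.Helper40K9.RF.Par

set_option autoImplicit false
set_option linter.unusedVariables false
set_option linter.unusedSectionVars false

/-! Probability estimates for independent points. -/

namespace Pool.Agent.Helper40K9.RF

open Finset MeasureTheory

variable {X : Type*} [MeasurableSpace X]

/-- the law of an infinite sequence of independent points -/
noncomputable abbrev Pr (μ : Measure X) [IsProbabilityMeasure μ] : Measure (ℕ → X) :=
  Measure.infinitePi (fun _ : ℕ => μ)

/-- a closed ball -/
def cb (D : X → X → ℝ) (x : X) (r : ℝ) : Set X := {y | D x y ≤ r}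

theorem measD {D : X → X → ℝ} (hD : Measurable (fun p : X × X => D p.1 p.2)) (i j : ℕ) :
    Measurable (fun ω : ℕ → X => D (ω i) (ω j)) :=
  Measurable.comp (g := fun p : X × X => D p.1 p.2) (f := fun ω : ℕ → X => (ω i, ω j)) hD
    ((measurable_pi_apply i).prodMk (measurable_pi_apply j))

variable (μ : Measure X) [IsProbabilityMeasure μ]

theorem measurable_upd (j : ℕ) :
    Measurable (fun p : (ℕ → X) × X => Function.update p.1 j p.2) := by
  rw [measurable_pi_iff]
  intro i
  by_cases h : i = j
  · subst h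
    simp only [Function.update_self]
    exact measurable_snd
  · simp only [Function.update_of_ne h]
    exact (measurable_pi_apply i).comp measurable_fst

theorem resample (j : ℕ) :
    MeasurePreserving (fun p : (ℕ → X) × X => Function.update p.1 j p.2) ((Pr μ).prod μ) (Pr μ) := by
  classical
  refine ⟨measurable_upd j, ?_⟩
  apply Measure.eq_infinitePi
  intro s t ht
  rw [Measure.map_apply (measurable_upd j) (MeasurableSet.pi s.countable_toSet fun i _ => ht i)]
  by_cases hj : j ∈ s
  · have : (fun p : (ℕ → X) × X => Function.update p.1 j p.2) ⁻¹' (Set.pi s t) =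
        (Set.pi (s.erase j) t) ×ˢ (t j) := by
      ext ⟨ω, x⟩
      simp only [Set.mem_preimage, Set.mem_pi, Finset.mem_coe, Set.mem_prod, mem_erase]
      constructor
      · intro h
        refine ⟨fun i hi => ?_, ?_⟩
        · have := h i hi.2
          rwa [Function.update_of_ne hi.1] at this
        · have := h j hj
          rwa [Function.update_self] at this
      · rintro ⟨h1, h2⟩ i hi
        by_cases hij : i = j
        · subst hij
          rwa [Function.update_self]
        · rw [Function.update_of_ne hij]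
          exact h1 i ⟨hij, hi⟩
    rw [this, Measure.prod_prod, Measure.infinitePi_pi _ fun i _ => ht i]
    rw [← Finset.prod_erase_mul s _ hj]
  · have : (fun p : (ℕ → X) × X => Function.update p.1 j p.2) ⁻¹' (Set.pi s t) =
        (Set.pi s t) ×ˢ (Set.univ) := by
      ext ⟨ω, x⟩
      simp only [Set.mem_preimage, Set.mem_pi, Finset.mem_coe, Set.mem_prod, Set.mem_univ, and_true]
      constructor
      · intro h i hi
        have := h i hi
        rwa [Function.update_of_ne (fun h : i = j => hj (h ▸ hi))] at this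
      · intro h i hi
        rw [Function.update_of_ne (fun h : i = j => hj (h ▸ hi))]
        exact h i hi
    rw [this, Measure.prod_prod, Measure.infinitePi_pi _ fun i _ => ht i]
    simp

theorem box_real (s : Finset ℕ) (B : ℕ → Set X) (hB : ∀ i ∈ s, MeasurableSet (B i)) :
    (Pr μ).real {ω | ∀ i ∈ s, ω i ∈ B i} = ∏ i ∈ s, μ.real (B i) := by
  have h : {ω : ℕ → X | ∀ i ∈ s, ω i ∈ B i} = Set.pi s B := by
    ext ω
    simp [Set.mem_pi]
  rw [h, Measure.real, Measure.infinitePi_pi _ hB, ENNReal.toReal_prod]
  rfl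

/-- `E` does not depend on the coordinate `j` -/
def NotDep (E : Set (ℕ → X)) (j : ℕ) : Prop := ∀ ω x, Function.update ω j x ∈ E ↔ ω ∈ E

variable {μ}

theorem peel {D : X → X → ℝ} (hD : Measurable (fun p : X × X => D p.1 p.2))
    {E : Set (ℕ → X)} (hE : MeasurableSet E) {i j : ℕ} (hEj : NotDep E j) (hij : i ≠ j) {h q : ℝ}
    (hq : ∀ x, μ.real (cb D x h) ≤ q) :
    (Pr μ).real (E ∩ {ω | D (ω i) (ω j) ≤ h}) ≤ (Pr μ).real E * q := by
  have hq0 : 0 ≤ q := by
    have : Nonempty X := by
      by_contra hne
      rw [not_nonempty_iff] at hne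
      have h1 : μ Set.univ = 1 := measure_univ
      rw [Set.univ_eq_empty_iff.2 hne, measure_empty] at h1
      exact zero_ne_one h1
    exact measureReal_nonneg.trans (hq (Classical.arbitrary X))
  have hS : MeasurableSet {ω : ℕ → X | D (ω i) (ω j) ≤ h} :=
    measurableSet_le (measD hD i j) measurable_const
  have hmeas : MeasurableSet (E ∩ {ω : ℕ → X | D (ω i) (ω j) ≤ h}) := hE.inter hS
  have key : (Pr μ) (E ∩ {ω | D (ω i) (ω j) ≤ h}) ≤ (Pr μ) E * ENNReal.ofReal q := by
    rw [← (resample μ j).measure_preimage hmeas.nullMeasurableSet,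
      Measure.prod_apply (measurable_upd j hmeas)]
    have h1 : ∀ ω : ℕ → X, μ (Prod.mk ω ⁻¹' ((fun p : (ℕ → X) × X => Function.update p.1 j p.2) ⁻¹'
        (E ∩ {ω | D (ω i) (ω j) ≤ h}))) ≤ E.indicator (fun _ => ENNReal.ofReal q) ω := by
      intro ω
      by_cases hω : ω ∈ E
      · rw [Set.indicator_of_mem hω]
        have h2 : (Prod.mk ω ⁻¹' ((fun p : (ℕ → X) × X => Function.update p.1 j p.2) ⁻¹'
          (E ∩ {ω | D (ω i) (ω j) ≤ h}))) ⊆ cb D (ω i) h := by
          intro x hx
          simp only [Set.mem_preimage, Set.mem_inter_iff, Set.mem_ofPred_eq] at hx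
          have := hx.2
          rw [Function.update_self, Function.update_of_ne hij] at this
          exact this
        refine (measure_mono h2).trans ?_
        rw [← ofReal_measureReal]
        exact ENNReal.ofReal_le_ofReal (hq _)
      · rw [Set.indicator_of_notMem hω]
        have h2 : (Prod.mk ω ⁻¹' ((fun p : (ℕ → X) × X => Function.update p.1 j p.2) ⁻¹'
          (E ∩ {ω | D (ω i) (ω j) ≤ h}))) = ∅ := by
          ext x
          simp only [Set.mem_preimage, Set.mem_inter_iff, Set.mem_empty_iff_false, iff_false]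
          intro hx
          exact hω ((hEj ω x).1 hx.1)
        rw [h2, measure_empty]
    refine (lintegral_mono h1).trans ?_
    rw [lintegral_indicator hE, lintegral_const, Measure.restrict_apply MeasurableSet.univ,
      Set.univ_inter, mul_comm]
  unfold Measure.real
  have h3 := ENNReal.toReal_mono (ENNReal.mul_ne_top (measure_ne_top _ _) ENNReal.ofReal_ne_top) key
  rwa [ENNReal.toReal_mul, ENNReal.toReal_ofReal hq0] at h3

theorem peel_set {E : Set (ℕ → X)} (hE : MeasurableSet E) {j : ℕ} (hEj : NotDep E j) {A : Set X}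
    (hA : MeasurableSet A) :
    (Pr μ).real (E ∩ {ω | ω j ∈ A}) = (Pr μ).real E * μ.real A := by
  have hS : MeasurableSet {ω : ℕ → X | ω j ∈ A} := measurable_pi_apply j hA
  have hmeas : MeasurableSet (E ∩ {ω : ℕ → X | ω j ∈ A}) := hE.inter hS
  have key : (Pr μ) (E ∩ {ω | ω j ∈ A}) = (Pr μ) E * μ A := by
    rw [← (resample μ j).measure_preimage hmeas.nullMeasurableSet]
    have : ((fun p : (ℕ → X) × X => Function.update p.1 j p.2) ⁻¹' (E ∩ {ω | ω j ∈ A})) =
        E ×ˢ A := by
      ext ⟨ω, x⟩
      simp only [Set.mem_preimage, Set.mem_inter_iff, Set.mem_ofPred_eq, Function.update_self,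
        Set.mem_prod]
      rw [hEj ω x]
    rw [this, Measure.prod_prod]
  unfold Measure.real
  rw [key, ENNReal.toReal_mul]

/-- no point `ω i`, `i ∈ J`, is in `B` -/
def Avoid (J : Finset ℕ) (B : Set X) : Set (ℕ → X) := {ω | ∀ i ∈ J, ω i ∉ B}

theorem measurableSet_avoid (J : Finset ℕ) {B : Set X} (hB : MeasurableSet B) :
    MeasurableSet (Avoid J B) := by
  have : Avoid J B = ⋂ i ∈ J, {ω : ℕ → X | ω i ∈ Bᶜ} := by
    ext ω
    simp [Avoid]
  rw [this]
  exact J.measurableSet_biInter fun i _ => measurable_pi_apply i hB.compl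

theorem avoid_real (J : Finset ℕ) {B : Set X} (hB : MeasurableSet B) :
    (Pr μ).real (Avoid J B) = (1 - μ.real B) ^ J.card := by
  have h1 : Avoid J B = {ω : ℕ → X | ∀ i ∈ J, ω i ∈ Bᶜ} := rfl
  rw [h1, box_real μ J (fun _ => Bᶜ) fun _ _ => hB.compl]
  simp only [prod_const]
  rw [measureReal_compl hB, probReal_univ]

/-- the event that the chain `e 0, …, e m` starts in `A` and has steps at most `h` -/
def ChE (D : X → X → ℝ) (A : Set X) (h : ℝ) (e : ℕ → ℕ) (m : ℕ) : Set (ℕ → X) :=
  {ω | ω (e 0) ∈ A ∧ ∀ a < m, D (ω (e a)) (ω (e (a + 1))) ≤ h}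

theorem measurableSet_ChE {D : X → X → ℝ} (hD : Measurable (fun p : X × X => D p.1 p.2))
    {A : Set X} (hA : MeasurableSet A) (h : ℝ) (e : ℕ → ℕ) (m : ℕ) :
    MeasurableSet (ChE D A h e m) := by
  have : ChE D A h e m = {ω : ℕ → X | ω (e 0) ∈ A} ∩
      ⋂ a ∈ range m, {ω : ℕ → X | D (ω (e a)) (ω (e (a + 1))) ≤ h} := by
    ext ω
    simp [ChE]
  rw [this]
  refine (measurable_pi_apply _ hA).inter ((range m).measurableSet_biInter fun a _ => ?_)
  exact measurableSet_le (measD hD _ _) measurable_const

theorem chain_real {D : X → X → ℝ} (hD : Measurable (fun p : X × X => D p.1 p.2))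
    {J : Finset ℕ} {B : Set X} (hB : MeasurableSet B) {A : Set X} (hA : MeasurableSet A) {h q : ℝ}
    (hq : ∀ x, μ.real (cb D x h) ≤ q) (hq0 : 0 ≤ q) (e : ℕ → ℕ) (m : ℕ) :
    (∀ a < m, e (a + 1) < e a) → (∀ a ≤ m, e a ∉ J) →
    (Pr μ).real (Avoid J B ∩ ChE D A h e m) ≤
      (Pr μ).real (Avoid J B) * (μ.real A * q ^ m) := by
  induction m with
  | zero =>
    intro _ h2
    have h3 : ChE D A h e 0 = {ω : ℕ → X | ω (e 0) ∈ A} := by
      ext ω
      simp [ChE]
    rw [h3, peel_set (measurableSet_avoid J hB) _ hA]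
    · simp
    · intro ω x
      unfold Avoid
      simp only [Set.mem_ofPred_eq]
      constructor
      · intro h i hi
        have := h i hi
        rwa [Function.update_of_ne (fun h : i = e 0 => h2 0 le_rfl (h ▸ hi))] at this
      · intro h i hi
        rw [Function.update_of_ne (fun h : i = e 0 => h2 0 le_rfl (h ▸ hi))]
        exact h i hi
  | succ m ih =>
    intro h1 h2
    have h3 : Avoid J B ∩ ChE D A h e (m + 1) =
        (Avoid J B ∩ ChE D A h e m) ∩ {ω : ℕ → X | D (ω (e m)) (ω (e (m + 1))) ≤ h} := by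
      ext ω
      simp only [ChE, Set.mem_inter_iff, Set.mem_ofPred_eq]
      constructor
      · rintro ⟨ha, hb, hc⟩
        exact ⟨⟨ha, hb, fun a ha => hc a (by omega)⟩, hc m (by omega)⟩
      · rintro ⟨⟨ha, hb, hc⟩, hd⟩
        refine ⟨ha, hb, fun a ha => ?_⟩
        by_cases ham : a = m
        · subst ham
          exact hd
        · exact hc a (by omega)
    have hlt : ∀ a ≤ m, e (m + 1) < e a := by
      intro a ha
      obtain ⟨c, rfl⟩ := Nat.exists_eq_add_of_le ha
      clear h3 ih ha
      induction c with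
      | zero => exact h1 a (by omega)
      | succ c ih =>
        have h4 := h1 (a + c + 1) (by omega)
        have h5 := ih (fun b hb => h1 b (by omega)) (fun b hb => h2 b (by omega))
        have h6 : e (a + (c + 1) + 1) < e (a + c + 1) := h4
        omega
    rw [h3]
    refine (peel hD ((measurableSet_avoid J hB).inter (measurableSet_ChE hD hA h e m)) ?_ ?_
      hq).trans ?_
    · intro ω x
      unfold Avoid ChE
      simp only [Set.mem_inter_iff, Set.mem_ofPred_eq]
      have hJ : ∀ i ∈ J, Function.update ω (e (m + 1)) x i = ω i := fun i hi =>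
        Function.update_of_ne (fun h : i = e (m + 1) => h2 (m + 1) le_rfl (h ▸ hi)) _ _
      have he : ∀ a ≤ m, Function.update ω (e (m + 1)) x (e a) = ω (e a) := fun a ha =>
        Function.update_of_ne (hlt a ha).ne' _ _
      constructor
      · rintro ⟨ha, hb, hc⟩
        refine ⟨fun i hi => ?_, ?_, fun a ha => ?_⟩
        · rw [← hJ i hi]; exact ha i hi
        · rw [← he 0 (by omega)]; exact hb
        · rw [← he a (by omega), ← he (a + 1) (by omega)]; exact hc a ha
      · rintro ⟨ha, hb, hc⟩
        refine ⟨fun i hi => ?_, ?_, fun a ha => ?_⟩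
        · rw [hJ i hi]; exact ha i hi
        · rw [he 0 (by omega)]; exact hb
        · rw [he a (by omega), he (a + 1) (by omega)]; exact hc a ha
    · exact (h1 m (by omega)).ne'
    · have := ih (fun a ha => h1 a (by omega)) (fun a ha => h2 a (by omega))
      calc _ ≤ (Pr μ).real (Avoid J B) * (μ.real A * q ^ m) * q :=
            mul_le_mul_of_nonneg_right this hq0
        _ = _ := by ring

end Pool.Agent.Helper40K9.RF
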