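import Pool.Agent.Helper40K9.RF.Main

set_option autoImplicit false
set_option linter.unusedVariables false
set_option linter.unusedSectionVars false

/-! The torus. -/

namespace Pool.Agent.Helper40K9.RF

open MeasureTheory

/-- Euclidean distance on a product of circles -/
noncomputable def tD (d : ℕ) (T : ℝ) (x y : Fin d → AddCircle T) : ℝ :=
  Real.sqrt (∑ k, dist (x k) (y k) ^ 2)

/-- the uniform law on a product of circles -/
noncomputable def tμ (d : ℕ) (T : ℝ) [Fact (0 < T)] : Measure (Fin d → AddCircle T) :=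
  Measure.pi fun _ => AddCircle.haarAddCircle

instance (d : ℕ) (T : ℝ) [Fact (0 < T)] : IsProbabilityMeasure (tμ d T) := by
  unfold tμ
  infer_instance

theorem tD_eq (d : ℕ) (T : ℝ) (x y : Fin d → AddCircle T) :
    tD d T x y = dist (WithLp.toLp 2 x : PiLp 2 fun _ : Fin d => AddCircle T) (WithLp.toLp 2 y) := by
  rw [PiLp.dist_eq_of_L2]
  rfl

theorem measurable_tD (d : ℕ) (T : ℝ) :
    Measurable fun p : (Fin d → AddCircle T) × (Fin d → AddCircle T) => tD d T p.1 p.2 := by
  unfold tD
  have h : Continuous fun p : (Fin d → AddCircle T) × (Fin d → AddCircle T) =>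
      Real.sqrt (∑ k, dist (p.1 k) (p.2 k) ^ 2) := by fun_prop
  exact h.measurable

theorem haar_ball (x : UnitAddCircle) (r : ℝ) :
    (AddCircle.haarAddCircle (T := (1 : ℝ))).real (Metric.closedBall x r) =
      max (min 1 (2 * r)) 0 := by
  have h1 := AddCircle.volume_closedBall (T := (1 : ℝ)) (x := x) r
  rw [AddCircle.volume_eq_smul_haarAddCircle] at h1
  simp only [ENNReal.ofReal_one, one_smul] at h1
  unfold Measure.real
  rw [h1, ENNReal.toReal_ofReal']

theorem reg_torus (d : ℕ) (hd : 1 ≤ d) : Reg (tμ d 1) (tD d 1) d ((1 / (d : ℝ)) ^ d) (2 ^ d) := by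
  have hd0 : (0 : ℝ) < d := by exact_mod_cast hd
  have hd1 : (1 : ℝ) ≤ d := by exact_mod_cast hd
  refine ⟨?_, ?_, ?_, measurable_tD d 1, by positivity, by positivity, hd, ?_, ?_⟩
  · intro x
    simp [tD]
  · intro x y
    rw [tD_eq, tD_eq, dist_comm]
  · intro x y z
    rw [tD_eq, tD_eq, tD_eq]
    exact dist_triangle _ _ _
  · intro x r hr hr1
    have h1 : Set.pi Set.univ (fun k => Metric.closedBall (x k) (r / d)) ⊆ cb (tD d 1) x r := by
      intro y hy
      have h2 : ∀ k, dist (x k) (y k) ^ 2 ≤ (r / d) ^ 2 := by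
        intro k
        have := hy k (Set.mem_univ k)
        rw [Metric.mem_closedBall, dist_comm] at this
        exact pow_le_pow_left₀ dist_nonneg this 2
      have h3 : ∑ k, dist (x k) (y k) ^ 2 ≤ r ^ 2 := by
        refine (Finset.sum_le_sum fun k _ => h2 k).trans ?_
        rw [Finset.sum_const, Finset.card_univ, Fintype.card_fin, nsmul_eq_mul, div_pow]
        rw [mul_div_assoc', div_le_iff₀ (by positivity)]
        have : 0 < r ^ 2 := by positivity
        nlinarith [mul_nonneg this.le (mul_nonneg hd0.le (sub_nonneg.2 hd1))]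
      show Real.sqrt _ ≤ r
      rw [Real.sqrt_le_left hr.le]
      exact h3
    refine le_trans ?_ (measureReal_mono h1 (measure_ne_top _ _))
    have h4 : (tμ d 1).real (Set.pi Set.univ (fun k => Metric.closedBall (x k) (r / d))) =
        ∏ k : Fin d, (AddCircle.haarAddCircle (T := (1 : ℝ))).real (Metric.closedBall (x k) (r / d)) := by
      unfold tμ Measure.real
      rw [Measure.pi_pi, ENNReal.toReal_prod]
    rw [h4, ← mul_pow]
    calc (1 / (d : ℝ) * r) ^ d = ∏ k : Fin d, (1 / (d : ℝ) * r) := by simp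
      _ ≤ _ := by
          refine Finset.prod_le_prod (fun _ _ => by positivity) fun k _ => ?_
          rw [haar_ball]
          refine le_trans ?_ (le_max_left _ _)
          rw [le_min_iff]
          constructor
          · rw [div_mul_eq_mul_div, one_mul, div_le_one hd0]
            linarith
          · have : 0 < r / d := by positivity
            rw [div_mul_eq_mul_div, one_mul]
            linarith
  · intro x r hr
    have h1 : cb (tD d 1) x r ⊆ Set.pi Set.univ (fun k => Metric.closedBall (x k) r) := by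
      intro y hy k _
      have h2 : Real.sqrt (∑ k, dist (x k) (y k) ^ 2) ≤ r := hy
      rw [Real.sqrt_le_left hr.le] at h2
      have h3 : dist (x k) (y k) ^ 2 ≤ ∑ k, dist (x k) (y k) ^ 2 :=
        Finset.single_le_sum (f := fun k => dist (x k) (y k) ^ 2) (fun _ _ => sq_nonneg _)
          (Finset.mem_univ k)
      rw [Metric.mem_closedBall, dist_comm]
      exact abs_le_of_sq_le_sq' (h3.trans h2) hr.le |>.2
    refine (measureReal_mono h1 (measure_ne_top _ _)).trans ?_
    have h4 : (tμ d 1).real (Set.pi Set.univ (fun k => Metric.closedBall (x k) r)) =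
        ∏ k : Fin d, (AddCircle.haarAddCircle (T := (1 : ℝ))).real (Metric.closedBall (x k) r) := by
      unfold tμ Measure.real
      rw [Measure.pi_pi, ENNReal.toReal_prod]
    rw [h4, ← mul_pow]
    calc _ ≤ ∏ k : Fin d, (2 * r) := by
          refine Finset.prod_le_prod (fun _ _ => measureReal_nonneg) fun k _ => ?_
          rw [haar_ball]
          exact max_le (min_le_right _ _) (by positivity)
      _ = _ := by simp

section Scale

variable {T : ℝ} [hT : Fact (0 < T)]

/-- scaling a circle -/
noncomputable def scl (T : ℝ) [Fact (0 < T)] : AddCircle (1 : ℝ) ≃+ AddCircle T :=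
  AddCircle.equivAddCircle 1 T one_ne_zero (Fact.out : (0 : ℝ) < T).ne'

theorem scl_continuous : Continuous (scl T) :=
  (AddCircle.homeomorphAddCircle 1 T one_ne_zero (Fact.out : (0 : ℝ) < T).ne').continuous

theorem scl_dist (x y : AddCircle (1 : ℝ)) : dist (scl T x) (scl T y) = T * dist x y := by
  rw [dist_eq_norm, dist_eq_norm, ← map_sub]
  obtain ⟨z, hz⟩ := QuotientAddGroup.mk_surjective (x - y)
  rw [← hz]
  have h1 : scl T ((z : ℝ) : AddCircle (1 : ℝ)) = ((z * (1⁻¹ * T) : ℝ) : AddCircle T) := rfl
  have h2 : ((z : ℝ) : AddCircle (1 : ℝ)) = QuotientAddGroup.mk z := rfl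
  rw [← h2, h1, AddCircle.norm_eq, AddCircle.norm_eq]
  have hT0 : (0 : ℝ) < T := Fact.out
  have h3 : T⁻¹ * (z * (1⁻¹ * T)) = (1 : ℝ)⁻¹ * z := by field_simp
  rw [h3]
  have h4 : z * (1⁻¹ * T) - (round ((1 : ℝ)⁻¹ * z) : ℝ) * T =
      T * (z - (round ((1 : ℝ)⁻¹ * z) : ℝ) * 1) := by ring
  rw [h4, abs_mul, abs_of_pos hT0]

theorem scl_measurePreserving :
    MeasurePreserving (scl T) (AddCircle.haarAddCircle (T := (1 : ℝ)))
      (AddCircle.haarAddCircle (T := T)) :=
  AddMonoidHom.measurePreserving (f := (scl T).toAddMonoidHom) scl_continuous (scl T).surjective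
    (by simp)

end Scale

end Pool.Agent.Helper40K9.RF
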