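import Mathlib

set_option autoImplicit false
set_option linter.unusedVariables false
set_option linter.unusedSectionVars false

/-! Deterministic part: recursive trees and a centrality rule. -/

namespace Pool.Agent.Helper40K9.RF

open Finset Relation

/-- the ancestor of `u` among the first two vertices -/
def cls (f : ℕ → ℕ) (u : ℕ) : ℕ := if h : 2 ≤ u ∧ f u < u then cls f (f u) else u
termination_by u
decreasing_by exact h.2

theorem cls_lt_two (f : ℕ → ℕ) {u : ℕ} (h : u < 2) : cls f u = u := by
  rw [cls, dif_neg (by omega)]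

theorem cls_ge_two (f : ℕ → ℕ) {u : ℕ} (h : 2 ≤ u) (hf : f u < u) : cls f u = cls f (f u) := by
  rw [cls, dif_pos ⟨h, hf⟩]

/-- the graph on `Fin n` joining each `u ≥ 1` to `f u` -/
def tree (f : ℕ → ℕ) (n : ℕ) : SimpleGraph (Fin n) where
  Adj a b := (b.1 < a.1 ∧ f a.1 = b.1) ∨ (a.1 < b.1 ∧ f b.1 = a.1)
  symm := ⟨fun a b h => h.symm⟩
  loopless := ⟨fun a h => by rcases h with h | h <;> exact absurd h.1 (lt_irrefl _)⟩

variable {n : ℕ}

/-- adjacency in `T` avoiding the vertex `v` -/
def R (T : SimpleGraph (Fin n)) (v : Fin n) (a b : Fin n) : Prop := T.Adj a b ∧ a ≠ v ∧ b ≠ v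

open Classical in
/-- the component of `w` in `T - v` -/
noncomputable def comp (T : SimpleGraph (Fin n)) (v w : Fin n) : Finset (Fin n) :=
  univ.filter fun u => ReflTransGen (R T v) w u

/-- all components of `T - v` have at most `c` vertices -/
def Good (c : ℝ) (T : SimpleGraph (Fin n)) (v : Fin n) : Prop :=
  ∀ w, w ≠ v → ((comp T v w).card : ℝ) ≤ c

open Classical in
/-- the set of the good vertices -/
noncomputable def goods (c : ℝ) (T : SimpleGraph (Fin n)) : Finset (Fin n) :=
  univ.filter fun v => Good c T v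

open Classical in
/-- the rule -/
noncomputable def rule (δ : ℝ) (K : ℕ) (n : ℕ) (T : SimpleGraph (Fin n)) : Finset (Fin n) :=
  if (goods ((1 - δ) * n) T).card ≤ K then goods ((1 - δ) * n) T else ∅

theorem rule_card (δ : ℝ) (K n : ℕ) (T : SimpleGraph (Fin n)) : (rule δ K n T).card ≤ K := by
  unfold rule
  split_ifs with h
  · exact h
  · simp

theorem R_map (T : SimpleGraph (Fin n)) (σ : Equiv.Perm (Fin n)) (v a b : Fin n) :
    R (T.map σ.toEmbedding) (σ v) (σ a) (σ b) ↔ R T v a b := by
  unfold R
  rw [show σ a = σ.toEmbedding a from rfl, show σ b = σ.toEmbedding b from rfl,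
    SimpleGraph.map_adj_apply]
  simp

theorem comp_map (T : SimpleGraph (Fin n)) (σ : Equiv.Perm (Fin n)) (v w : Fin n) :
    comp (T.map σ.toEmbedding) (σ v) (σ w) = (comp T v w).map σ.toEmbedding := by
  classical
  ext u
  simp only [comp, mem_filter, mem_univ, true_and, mem_map, Equiv.coe_toEmbedding]
  constructor
  · intro h
    refine ⟨σ.symm u, ?_, by simp⟩
    have key : ∀ a b, ReflTransGen (R (T.map σ.toEmbedding) (σ v)) a b →
        ReflTransGen (R T v) (σ.symm a) (σ.symm b) := by
      intro a b hab
      induction hab with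
      | refl => exact ReflTransGen.refl
      | @tail b c _ hbc ih =>
        refine ih.tail ?_
        rw [← R_map T σ]
        simpa using hbc
    simpa using key _ _ h
  · rintro ⟨u', h, rfl⟩
    induction h with
    | refl => exact ReflTransGen.refl
    | tail _ hbc ih => exact ih.tail ((R_map T σ _ _ _).2 hbc)

theorem good_map (c : ℝ) (T : SimpleGraph (Fin n)) (σ : Equiv.Perm (Fin n)) (v : Fin n) :
    Good c (T.map σ.toEmbedding) (σ v) ↔ Good c T v := by
  unfold Good
  constructor
  · intro h w hw
    have := h (σ w) (by simpa using hw)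
    rwa [comp_map, card_map] at this
  · intro h w hw
    obtain ⟨w, rfl⟩ := σ.surjective w
    rw [comp_map, card_map]
    exact h w (by simpa using hw)

theorem goods_map (c : ℝ) (T : SimpleGraph (Fin n)) (σ : Equiv.Perm (Fin n)) :
    goods c (T.map σ.toEmbedding) = (goods c T).map σ.toEmbedding := by
  classical
  ext u
  simp only [goods, mem_filter, mem_univ, true_and, mem_map, Equiv.coe_toEmbedding]
  constructor
  · intro h
    refine ⟨σ.symm u, ?_, by simp⟩
    rw [← good_map c T σ]
    simpa using h
  · rintro ⟨v, hv, rfl⟩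
    exact (good_map c T σ v).2 hv

theorem rule_map (δ : ℝ) (K : ℕ) (T : SimpleGraph (Fin n)) (σ : Equiv.Perm (Fin n)) (v : Fin n) :
    σ v ∈ rule δ K n (T.map σ.toEmbedding) ↔ v ∈ rule δ K n T := by
  unfold rule
  rw [goods_map, card_map]
  split_ifs with h
  · simp
  · simp

/-- `u` is a descendant of `i` -/
def IsDesc (f : ℕ → ℕ) (i u : ℕ) : Prop := ∃ s, f^[s] u = i

open Classical in
/-- the number of the descendants of `i` among the first `n` vertices -/
noncomputable def descN (f : ℕ → ℕ) (n i : ℕ) : ℕ := ((range n).filter fun u => IsDesc f i u).card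

/-- the number of vertices in the class `j` -/
def clsN (f : ℕ → ℕ) (n j : ℕ) : ℕ := ((range n).filter fun u => cls f u = j).card

theorem card_fin_filter (p : ℕ → Prop) [DecidablePred p] (n : ℕ) :
    ((univ : Finset (Fin n)).filter fun u => p u.1).card = ((range n).filter p).card := by
  refine card_bij (fun a _ => a.1) ?_ ?_ ?_
  · intro a ha
    simp only [mem_filter, mem_univ, true_and] at ha
    simp [ha]
  · intro a _ b _ h
    exact Fin.ext h
  · intro b hb
    simp only [mem_filter, mem_range] at hb
    exact ⟨⟨b, hb.1⟩, by simp [hb.2], rfl⟩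

section Det

variable {f : ℕ → ℕ} (hf : ∀ u, 1 ≤ u → f u < u)
include hf

theorem cls_lt (u : ℕ) : cls f u < 2 := by
  induction u using Nat.strong_induction_on with
  | _ u ih =>
    by_cases h : 2 ≤ u
    · rw [cls_ge_two f h (hf u (by omega))]
      exact ih _ (hf u (by omega))
    · rw [cls_lt_two f (by omega)]
      omega

theorem not_desc_parent {i u : ℕ} (h : ¬ IsDesc f i u) : ¬ IsDesc f i (f u) := by
  rintro ⟨s, hs⟩
  exact h ⟨s + 1, by rw [Function.iterate_succ_apply]; exact hs⟩

theorem reach_root {i : Fin n} (hi : 1 ≤ i.1) (u : ℕ) (hu : u < n) (hd : ¬ IsDesc f i.1 u) :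
    ReflTransGen (R (tree f n) i) ⟨0, by omega⟩ ⟨u, hu⟩ := by
  induction u using Nat.strong_induction_on with
  | _ u ih =>
    by_cases h0 : u = 0
    · subst h0
      exact ReflTransGen.refl
    · have h1 := hf u (by omega)
      have hd' := not_desc_parent hf hd
      refine (ih (f u) h1 (by omega) hd').tail ?_
      refine ⟨?_, ?_, ?_⟩
      · right
        exact ⟨h1, rfl⟩
      · intro h
        apply hd'
        rw [Fin.ext_iff] at h
        exact ⟨0, h⟩
      · intro h
        apply hd
        rw [Fin.ext_iff] at h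
        exact ⟨0, h⟩

/-- the good vertices are early -/
theorem not_good_of_desc {δ : ℝ} {i : Fin n} (hi : 1 ≤ i.1)
    (hd : (descN f n i.1 : ℝ) < δ * n) : ¬ Good ((1 - δ) * n) (tree f n) i := by
  classical
  intro hg
  have h1 := hg ⟨0, by omega⟩ (by
    intro h
    rw [Fin.ext_iff] at h
    simp only at h
    omega)
  have h2 : (univ : Finset (Fin n)).filter (fun u => ¬ IsDesc f i.1 u.1) ⊆
      comp (tree f n) i ⟨0, by omega⟩ := by
    intro u hu
    simp only [mem_filter, mem_univ, true_and] at hu
    simp only [comp, mem_filter, mem_univ, true_and]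
    exact reach_root hf hi u.1 u.2 hu
  have h3 := card_le_card h2
  rw [card_fin_filter (fun u => ¬ IsDesc f i.1 u)] at h3
  have h4 := card_filter_add_card_filter_not (s := range n) (fun u => IsDesc f i.1 u)
  rw [card_range] at h4
  unfold descN at hd
  have h5 : (n : ℝ) ≤ (((range n).filter fun u => IsDesc f i.1 u).card : ℝ) +
      ((comp (tree f n) i ⟨0, by omega⟩).card : ℝ) := by
    have : n ≤ ((range n).filter fun u => IsDesc f i.1 u).card +
        (comp (tree f n) i ⟨0, by omega⟩).card := by omega
    exact_mod_cast this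
  linarith

theorem cls_comp {v w u : Fin n} (hv : v.1 = 0) (hw : w ≠ v)
    (h : ReflTransGen (R (tree f n) v) w u) : cls f u.1 = cls f w.1 := by
  induction h with
  | refl => rfl
  | @tail b c _ hbc ih =>
    rw [← ih]
    obtain ⟨hadj, hb, hc⟩ := hbc
    have hb' : b.1 ≠ 0 := fun h => hb (Fin.ext (h.trans hv.symm))
    have hc' : c.1 ≠ 0 := fun h => hc (Fin.ext (h.trans hv.symm))
    rcases hadj with ⟨h1, h2⟩ | ⟨h1, h2⟩
    · rw [cls_ge_two f (u := b.1) (by omega) (hf _ (by omega)), h2]
    · rw [cls_ge_two f (u := c.1) (by omega) (hf _ (by omega)), h2]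

/-- the root is good -/
theorem good_root {δ : ℝ} {v : Fin n} (hv : v.1 = 0)
    (hc : 2 ≤ n → ∀ j < 2, δ * n ≤ clsN f n j) : Good ((1 - δ) * n) (tree f n) v := by
  classical
  intro w hw
  have hw0 : w.1 ≠ 0 := fun h => hw (Fin.ext (h.trans hv.symm))
  have hn : 2 ≤ n := by
    have := w.2
    omega
  have hcw := cls_lt hf w.1
  have h1 := hc hn (1 - cls f w.1) (by omega)
  have h2 : comp (tree f n) v w ⊆ (univ : Finset (Fin n)).filter
      (fun u => ¬ cls f u.1 = 1 - cls f w.1) := by
    intro u hu
    simp only [comp, mem_filter, mem_univ, true_and] at hu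
    simp only [mem_filter, mem_univ, true_and]
    rw [cls_comp hf hv hw hu]
    omega
  have h3 := card_le_card h2
  rw [card_fin_filter (fun u => ¬ cls f u = 1 - cls f w.1)] at h3
  have h4 := card_filter_add_card_filter_not (s := range n) (fun u => cls f u = 1 - cls f w.1)
  rw [card_range] at h4
  unfold clsN at h1
  have h5 : (((range n).filter fun u => cls f u = 1 - cls f w.1).card : ℝ) +
      ((comp (tree f n) v w).card : ℝ) ≤ n := by
    have : ((range n).filter fun u => cls f u = 1 - cls f w.1).card +
        (comp (tree f n) v w).card ≤ n := by omega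
    exact_mod_cast this
  linarith

/-- the rule finds the root -/
theorem root_mem_rule {δ : ℝ} {K : ℕ} (hK : 1 ≤ K) {v : Fin n} (hv : v.1 = 0)
    (hc : 2 ≤ n → ∀ j < 2, δ * n ≤ clsN f n j)
    (hd : ∀ i, K ≤ i → i < n → (descN f n i : ℝ) < δ * n) : v ∈ rule δ K n (tree f n) := by
  classical
  have h1 : goods ((1 - δ) * n) (tree f n) ⊆ univ.filter fun u : Fin n => u.1 < K := by
    intro u hu
    simp only [goods, mem_filter, mem_univ, true_and] at hu ⊢
    by_contra hK'
    exact not_good_of_desc hf (by omega) (hd u.1 (by omega) u.2) hu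
  have h2 : (goods ((1 - δ) * n) (tree f n)).card ≤ K := by
    refine (card_le_card h1).trans ?_
    rw [card_fin_filter (fun u => u < K)]
    calc _ ≤ (range K).card := card_le_card (by
          intro u hu
          simp only [mem_filter, mem_range] at hu ⊢
          exact hu.2)
      _ = K := card_range K
  unfold rule
  rw [if_pos h2]
  simp only [goods, mem_filter, mem_univ, true_and]
  exact good_root hf hv hc

end Det

end Pool.Agent.Helper40K9.RF
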