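import Pool.Agent.Helper40K9.RF.Est

set_option autoImplicit false
set_option linter.unusedVariables false
set_option linter.unusedSectionVars false

/-! The trial at the time `t`. -/

namespace Pool.Agent.Helper40K9.RF

open Finset MeasureTheory

variable {X : Type*} [MeasurableSpace X]
variable {μ : Measure X} [IsProbabilityMeasure μ] {D : X → X → ℝ} {d : ℕ} {c₁ c₂ : ℝ}

/-- the scales -/
def sc (s₀ k : ℕ) : ℕ := 2 ^ k * s₀

/-- the block boundaries -/
def Tm (d s₀ t k : ℕ) : ℕ := (sc s₀ k) ^ (2 * d + 1) * t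

theorem sc_pos {s₀ : ℕ} (hs : 1 ≤ s₀) (k : ℕ) : 1 ≤ sc s₀ k :=
  Nat.mul_pos (by positivity) hs

theorem Tm_succ (d s₀ t k : ℕ) : Tm d s₀ t (k + 1) = 2 ^ (2 * d + 1) * Tm d s₀ t k := by
  unfold Tm sc
  rw [pow_succ 2 k]
  ring

theorem Tm_pos (d : ℕ) {s₀ t : ℕ} (hs : 1 ≤ s₀) (ht : 1 ≤ t) (k : ℕ) : 1 ≤ Tm d s₀ t k :=
  Nat.mul_pos (Nat.pow_pos (sc_pos hs k)) ht

theorem Tm_double (d s₀ t k : ℕ) : 2 * Tm d s₀ t k ≤ Tm d s₀ t (k + 1) := by
  rw [Tm_succ]
  apply Nat.mul_le_mul_right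
  calc 2 = 2 ^ 1 := by norm_num
    _ ≤ 2 ^ (2 * d + 1) := Nat.pow_le_pow_right (by norm_num) (by omega)

theorem Tm_mono (d : ℕ) {s₀ t : ℕ} (hs : 1 ≤ s₀) (ht : 1 ≤ t) : StrictMono (Tm d s₀ t) := by
  apply strictMono_nat_of_lt_succ
  intro k
  have h1 := Tm_double d s₀ t k
  have h2 := Tm_pos d hs ht k
  omega

theorem le_Tm (d : ℕ) {s₀ t : ℕ} (hs : 1 ≤ s₀) (k : ℕ) : t ≤ Tm d s₀ t k := by
  unfold Tm
  exact Nat.le_mul_of_pos_left t (Nat.pow_pos (sc_pos hs k))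

theorem sum_le {s₀ C : ℕ} (hs : 1 ≤ s₀) {R : ℝ} (hR : 0 ≤ R) (k : ℕ) :
    ∑ l ∈ Icc 1 k, (((C * sc s₀ l : ℕ) : ℝ) * (R / (sc s₀ l : ℝ) ^ 2)) ≤ C * R / s₀ := by
  have h0 : (0 : ℝ) < s₀ := by exact_mod_cast hs
  have h1 : ∀ l, (((C * sc s₀ l : ℕ) : ℝ) * (R / (sc s₀ l : ℝ) ^ 2)) = (C * R / s₀) * (1 / 2) ^ l := by
    intro l
    unfold sc
    push_cast
    rw [one_div, inv_pow]
    field_simp
  rw [sum_congr rfl fun l _ => h1 l, ← mul_sum]
  have h2 : ∑ l ∈ Icc 1 k, ((1 : ℝ) / 2) ^ l ≤ 1 := by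
    have h3 : ∀ k : ℕ, ∑ l ∈ Icc 1 k, ((1 : ℝ) / 2) ^ l = 1 - (1 / 2) ^ k := by
      intro k
      induction k with
      | zero => simp
      | succ k ih =>
        rw [sum_Icc_succ_top (by omega), ih, pow_succ]
        ring
    rw [h3]
    have : (0 : ℝ) ≤ (1 / 2) ^ k := by positivity
    linarith
  calc C * R / s₀ * ∑ l ∈ Icc 1 k, ((1 : ℝ) / 2) ^ l ≤ C * R / s₀ * 1 :=
        mul_le_mul_of_nonneg_left h2 (by positivity)
    _ = _ := mul_one _

/-- the annulus -/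
def ann (D : X → X → ℝ) (x : X) (R : ℝ) : Set X := {y | R < D x y ∧ D x y ≤ 2 * R}

/-- the bad event for the trial at the time `t` -/
def Zbad (D : X → X → ℝ) (d : ℕ) (x : X) (j : ℕ) (R : ℝ) (s₀ t C : ℕ) : Set (ℕ → X) :=
  {ω | ∃ i ∈ (range (t + 1)).erase j, ω i ∈ cb D x (2 * R)} ∪
  ((⋃ k : ℕ, {ω | ¬ Cov D ω (cb D x (R / 2)) (Ioc (Tm d s₀ t k) (Tm d s₀ t (k + 1)))
      (R / (sc s₀ (k + 1) : ℝ) ^ 2)}) ∪
    ⋃ k : ℕ, {ω | Chain D ω (cb D x (R / 2)) (Ioc (Tm d s₀ t (k + 1)) (Tm d s₀ t (k + 2)))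
      (R / (sc s₀ (k + 1) : ℝ) ^ 2) (C * sc s₀ (k + 1))})

theorem measurableSet_ann (hR : Reg μ D d c₁ c₂) (x : X) (R : ℝ) : MeasurableSet (ann D x R) := by
  have : ann D x R = (cb D x R)ᶜ ∩ cb D x (2 * R) := by
    ext y
    simp [ann, cb]
  rw [this]
  exact (hR.mcb x R).compl.inter (hR.mcb x _)

theorem cov_congr {ω ω' : ℕ → X} {A : Set X} {I : Finset ℕ} {h : ℝ} (he : ∀ i ∈ I, ω i = ω' i) :
    Cov D ω A I h ↔ Cov D ω' A I h := by
  unfold Cov
  constructor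
  · intro hc a ha
    obtain ⟨i, hi, h1⟩ := hc a ha
    exact ⟨i, hi, by rwa [← he i hi]⟩
  · intro hc a ha
    obtain ⟨i, hi, h1⟩ := hc a ha
    exact ⟨i, hi, by rwa [he i hi]⟩

theorem chain_congr {ω ω' : ℕ → X} {A : Set X} {I : Finset ℕ} {h : ℝ} {m : ℕ}
    (he : ∀ i ∈ I, ω i = ω' i) : Chain D ω A I h m → Chain D ω' A I h m := by
  rintro ⟨e, h1, h2, h3, h4⟩
  refine ⟨e, h1, h2, ?_, ?_⟩
  · rwa [← he _ (h2 0 (by omega))]
  · intro a ha
    rw [← he _ (h2 a (by omega)), ← he _ (h2 (a + 1) (by omega))]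
    exact h4 a ha

/-- success of the trial -/
theorem trial_success (hR : Reg μ D d c₁ c₂) {x : X} {j s₀ t C : ℕ} {R : ℝ} (hj : j < 2)
    (ht : 1 ≤ t) (hs : 1 ≤ s₀) (hR0 : 0 < R) (hC : 4 * C ≤ s₀) {ω : ℕ → X}
    (hω : ω ∈ Avoid (Ioc t (Tm d s₀ t 1)) (ann D x R) \ Zbad D d x j R s₀ t C) (u : ℕ)
    (hu : D x (Function.update ω j x u) ≤ R / 4) :
    cls (par D (Function.update ω j x)) u = j := by
  set ω' := Function.update ω j x with hω'
  have hne : ∀ i, i ≠ j → ω' i = ω i := fun i hi => Function.update_of_ne hi _ _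
  obtain ⟨h1, h2⟩ := hω
  unfold Zbad at h2
  simp only [Set.mem_union, Set.mem_iUnion, Set.mem_ofPred_eq, not_or, not_exists, not_and,
    not_not] at h2
  obtain ⟨hG, hcov, hch⟩ := h2
  have hT := Tm_mono d hs ht
  have hbig : ∀ k i, i ∈ Ioc (Tm d s₀ t k) (Tm d s₀ t (k + 1)) → ω i = ω' i := by
    intro k i hi
    rw [mem_Ioc] at hi
    have := le_Tm d (t := t) hs k
    exact (hne i (by omega)).symm
  refine pure_all (ω := ω') (T := Tm d s₀ t) (h := fun k => R / (sc s₀ k : ℝ) ^ 2)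
    (m := fun k => C * sc s₀ k) (x := x) (R := R) (t := t) (j := j) hR.self hR.symm hR.tri hj ht
    (by rw [hω', Function.update_self]) hR0.le hT (Tm_pos d hs ht 1) ?_ ?_ ?_ ?_ ?_ ?_ u hu
  · intro i hi hij
    rw [hne i hij]
    have := hG i (by rw [mem_erase, mem_range]; exact ⟨hij, by omega⟩)
    simp only [cb, Set.mem_ofPred_eq, not_le] at this
    exact this
  · intro i hi hcon
    rw [hne i (by rw [mem_Ioc] at hi; omega)] at hcon
    exact h1 i hi hcon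
  · intro k
    positivity
  · intro k hk
    obtain ⟨k, rfl⟩ := Nat.exists_eq_add_of_le' hk
    rw [Nat.add_sub_cancel]
    exact (cov_congr (hbig k)).1 (hcov k)
  · intro k hk hcon
    obtain ⟨k, rfl⟩ := Nat.exists_eq_add_of_le' hk
    apply hch k
    exact chain_congr (fun i hi => (hbig (k + 1) i hi).symm) hcon
  · intro k
    refine (sum_le hs hR0.le k).trans ?_
    have h0 : (0 : ℝ) < s₀ := by exact_mod_cast hs
    rw [div_le_div_iff₀ h0 (by norm_num)]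
    have h3 : (4 * C : ℝ) ≤ s₀ := by exact_mod_cast hC
    nlinarith

/-- the probability of failure -/
theorem trial_bad (hR : Reg μ D d c₁ c₂) {β : ℝ} (hβ : 0 < β) {C : ℕ}
    (hC : 3 * (c₂ * (2 ^ (2 * d + 1) * β)) + 1 ≤ C) :
    ∃ K : ℝ, 0 ≤ K ∧ ∀ (x : X) (j s₀ t : ℕ) (R : ℝ), j < 2 → 1 ≤ t → 1 ≤ s₀ → 0 < R → R ≤ 1 →
      R ^ d * t = β →
      (Pr μ).real (Avoid (Ioc t (Tm d s₀ t 1)) (ann D x R) ∩ Zbad D d x j R s₀ t C) ≤
        (c₂ * 2 ^ (d + 1) * β + K / s₀) * (Pr μ).real (Avoid (Ioc t (Tm d s₀ t 1)) (ann D x R)) := by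
  have hc1 := hR.c₁_pos
  have hc2 := hR.c₂_pos
  have hγ : 0 < c₁ * (β / 2) / 2 ^ d := by positivity
  obtain ⟨K1, hK1, hK1'⟩ := pow_exp_le (2 * d) hγ
  obtain ⟨K2, hK2, hK2'⟩ := pow_exp_le (2 * d + 1) one_pos
  set α1 : ℝ := c₂ / c₁ * 6 ^ d with hα1
  set w : ℝ := 2 ^ (d + 1) * c₂ * β with hw
  have hα0 : 0 ≤ α1 := by positivity
  have hw0 : 0 ≤ w := by positivity
  refine ⟨α1 * K1 + w * K2, by positivity, fun x j s₀ t R hj ht hs hR0 hR1 hRβ => ?_⟩
  set J := Ioc t (Tm d s₀ t 1) with hJ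
  set B := ann D x R with hB
  have hBm : MeasurableSet B := measurableSet_ann hR x R
  set a := (Pr μ).real (Avoid J B) with ha
  have ha0 : 0 ≤ a := measureReal_nonneg
  have ht0 : (0 : ℝ) < t := by exact_mod_cast ht
  have hs0 : (0 : ℝ) < s₀ := by exact_mod_cast hs
  have hTR : ∀ k, (Tm d s₀ t k : ℝ) * R ^ d = β * (sc s₀ k : ℝ) ^ (2 * d + 1) := by
    intro k
    unfold Tm
    push_cast
    rw [← hRβ]
    ring
  have hscr : ∀ k, (sc s₀ k : ℝ) = 2 ^ k * s₀ := by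
    intro k
    unfold sc
    push_cast
    ring
  have hsc0 : ∀ k, (0 : ℝ) < sc s₀ k := fun k => by exact_mod_cast sc_pos hs k
  have hinv : ∀ k (K : ℝ), K / (sc s₀ (k + 1) : ℝ) = K / (2 * s₀) * (1 / 2) ^ k := by
    intro k K
    rw [hscr, pow_succ, one_div, inv_pow]
    field_simp
  -- part 1
  have p1 : (Pr μ).real (Avoid J B ∩ {ω | ∃ i ∈ (range (t + 1)).erase j, ω i ∈ cb D x (2 * R)}) ≤
      a * (c₂ * 2 ^ (d + 1) * β) := by
    have h1 : Avoid J B ∩ {ω | ∃ i ∈ (range (t + 1)).erase j, ω i ∈ cb D x (2 * R)} ⊆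
        ⋃ i ∈ (range (t + 1)).erase j, (Avoid J B ∩ {ω | ω i ∈ cb D x (2 * R)}) := by
      rintro ω ⟨h1, i, hi, h2⟩
      simp only [Set.mem_iUnion]
      exact ⟨i, hi, h1, h2⟩
    refine (measureReal_mono h1 (measure_ne_top _ _)).trans ((measureReal_biUnion_finset_le _ _).trans ?_)
    have h2 : ∀ i ∈ (range (t + 1)).erase j,
        (Pr μ).real (Avoid J B ∩ {ω | ω i ∈ cb D x (2 * R)}) ≤ a * (c₂ * (2 * R) ^ d) := by
      intro i hi
      rw [mem_erase, mem_range] at hi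
      have hiJ : i ∉ J := by
        rw [hJ, mem_Ioc]
        omega
      rw [peel_set (measurableSet_avoid J hBm) _ (hR.mcb x _)]
      · exact mul_le_mul_of_nonneg_left (hR.upper x _ (by positivity)) ha0
      · intro ω y
        unfold Avoid
        simp only [Set.mem_ofPred_eq]
        constructor
        · intro h i' hi'
          have := h i' hi'
          rwa [Function.update_of_ne (fun h : i' = i => hiJ (h ▸ hi'))] at this
        · intro h i' hi'
          rw [Function.update_of_ne (fun h : i' = i => hiJ (h ▸ hi'))]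
          exact h i' hi'
    refine (sum_le_sum h2).trans ?_
    rw [sum_const, nsmul_eq_mul]
    have h3 : (((range (t + 1)).erase j).card : ℝ) ≤ 2 * t := by
      have h4 : ((range (t + 1)).erase j).card ≤ t + 1 :=
        (card_le_card (erase_subset _ _)).trans (card_range _).le
      have h5 : ((range (t + 1)).erase j).card ≤ 2 * t := by omega
      exact_mod_cast h5
    calc _ ≤ 2 * t * (a * (c₂ * (2 * R) ^ d)) := mul_le_mul_of_nonneg_right h3 (by positivity)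
      _ = a * (c₂ * 2 ^ (d + 1) * (R ^ d * t)) := by
          rw [mul_pow, pow_succ]
          ring
      _ = _ := by rw [hRβ]
  -- part 2
  have p2 : ∀ k, (Pr μ).real (Avoid J B ∩ {ω | ¬ Cov D ω (cb D x (R / 2))
      (Ioc (Tm d s₀ t k) (Tm d s₀ t (k + 1))) (R / (sc s₀ (k + 1) : ℝ) ^ 2)}) ≤
      a * (α1 * K1 / (2 * s₀)) * (1 / 2) ^ k := by
    intro k
    set s := sc s₀ (k + 1) with hsdef
    have hs1 : 1 ≤ s := sc_pos hs _
    have hsr : (1 : ℝ) ≤ s := by exact_mod_cast hs1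
    have hsp : (0 : ℝ) < s := by linarith
    have h1 := cov_bound (μ := μ) hR (J := J) (I := Ioc (Tm d s₀ t k) (Tm d s₀ t (k + 1))) hBm
      (A := cb D x (R / 2)) (V := cb D x R) (R := R) (v := c₂ * R ^ d) (b := β / 2) (s := s) hs1
      hR0 hR1 (by positivity) (by
        intro y hy z hz
        have h2 : D x y ≤ R / 2 := hy
        have h3 : D y z ≤ R / (6 * s ^ 2) := hz
        have h4 := hR.tri x y z
        have h5 : R / (6 * (s : ℝ) ^ 2) ≤ R / 2 :=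
          div_le_div_of_nonneg_left hR0.le (by norm_num) (by nlinarith)
        have : D x z ≤ R := by linarith
        exact this) (by
        intro y hy
        rw [Set.disjoint_left]
        intro z hz hzB
        have h2 : D x y ≤ R / 2 := hy
        have h3 : D y z ≤ R / (2 * s ^ 2) := hz
        have h4 := hR.tri x y z
        have h5 : R / (2 * (s : ℝ) ^ 2) ≤ R / 2 :=
          div_le_div_of_nonneg_left hR0.le (by norm_num) (by nlinarith)
        have h6 : R < D x z := hzB.1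
        linarith) (hR.upper x R hR0) (by
        have h2 := hTR (k + 1)
        have h3 := Tm_double d s₀ t k
        have h4 : (Tm d s₀ t (k + 1) : ℝ) ≤ 2 * (Ioc (Tm d s₀ t k) (Tm d s₀ t (k + 1))).card := by
          rw [Nat.card_Ioc]
          have : Tm d s₀ t (k + 1) ≤ 2 * (Tm d s₀ t (k + 1) - Tm d s₀ t k) := by omega
          exact_mod_cast this
        have h5 : 0 < R ^ d := by positivity
        have h6 : β / 2 * (s : ℝ) ^ (2 * d + 1) = (Tm d s₀ t (k + 1) : ℝ) * R ^ d / 2 := by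
          rw [h2]; ring
        rw [h6]
        nlinarith)
    refine h1.trans ?_
    have h2 : c₂ * R ^ d / (c₁ * (R / (6 * (s : ℝ) ^ 2)) ^ d) = α1 * (s : ℝ) ^ (2 * d) := by
      rw [hα1, div_pow, mul_pow, ← pow_mul]
      field_simp
    rw [h2]
    have h3 := hK1' s hsp
    have h4 : α1 * (s : ℝ) ^ (2 * d) * Real.exp (-(c₁ * (β / 2) / 2 ^ d * s)) ≤ α1 * (K1 / s) := by
      rw [mul_assoc]
      exact mul_le_mul_of_nonneg_left h3 hα0
    calc _ ≤ a * (α1 * (K1 / s)) := mul_le_mul_of_nonneg_left h4 ha0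
      _ = _ := by
          rw [hsdef, hinv]
          ring
  -- part 3
  have p3 : ∀ k, (Pr μ).real (Avoid J B ∩ {ω | Chain D ω (cb D x (R / 2))
      (Ioc (Tm d s₀ t (k + 1)) (Tm d s₀ t (k + 2))) (R / (sc s₀ (k + 1) : ℝ) ^ 2)
      (C * sc s₀ (k + 1))}) ≤ a * (w * K2 / (2 * s₀)) * (1 / 2) ^ k := by
    intro k
    set s := sc s₀ (k + 1) with hsdef
    have hs1 : 1 ≤ s := sc_pos hs _
    have hsp : (0 : ℝ) < s := by exact_mod_cast hs1
    have hcard : ((Ioc (Tm d s₀ t (k + 1)) (Tm d s₀ t (k + 2))).card : ℝ) ≤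
        2 ^ (2 * d + 1) * Tm d s₀ t (k + 1) := by
      rw [Nat.card_Ioc]
      have := Tm_succ d s₀ t (k + 1)
      have h2 : Tm d s₀ t (k + 2) - Tm d s₀ t (k + 1) ≤ 2 ^ (2 * d + 1) * Tm d s₀ t (k + 1) := by
        rw [show k + 2 = k + 1 + 1 from rfl]
        omega
      exact_mod_cast h2
    have hdisj : Disjoint (Ioc (Tm d s₀ t (k + 1)) (Tm d s₀ t (k + 2))) J := by
      rw [Finset.disjoint_left]
      intro i hi hi2
      rw [mem_Ioc] at hi
      rw [hJ, mem_Ioc] at hi2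
      have := (Tm_mono d hs ht).monotone (show 1 ≤ k + 1 by omega)
      omega
    have h1 := chain_bound (μ := μ) hR (J := J)
      (I := Ioc (Tm d s₀ t (k + 1)) (Tm d s₀ t (k + 2))) hdisj hBm (A := cb D x (R / 2))
      (hR.mcb x _) (R := R) (w := w) (b' := 2 ^ (2 * d + 1) * β) (s := s) (C := C) hs1 hR0
      (by positivity) (by
        have h2 := hTR (k + 1)
        have h5 : 0 < R ^ d := by positivity
        calc _ ≤ 2 ^ (2 * d + 1) * (Tm d s₀ t (k + 1) : ℝ) * R ^ d :=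
              mul_le_mul_of_nonneg_right hcard h5.le
          _ = 2 ^ (2 * d + 1) * ((Tm d s₀ t (k + 1) : ℝ) * R ^ d) := by ring
          _ = _ := by rw [h2]; ring) (by
        have h2 := hTR (k + 1)
        have h5 : 0 < R ^ d := by positivity
        have h6 := hR.upper x (R / 2) (by positivity)
        calc _ ≤ (2 ^ (2 * d + 1) * (Tm d s₀ t (k + 1) : ℝ)) * (c₂ * (R / 2) ^ d) :=
              mul_le_mul hcard h6 measureReal_nonneg (by positivity)
          _ = 2 ^ (2 * d + 1) / 2 ^ d * c₂ * ((Tm d s₀ t (k + 1) : ℝ) * R ^ d) := by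
              rw [div_pow]
              field_simp
          _ = _ := by
              rw [h2, hw, ← hsdef, show 2 * d + 1 = d + (d + 1) by ring,
                pow_add (2 : ℝ) d (d + 1)]
              field_simp) hC
    refine h1.trans ?_
    have h3 := hK2' s hsp
    calc _ ≤ a * (w * (K2 / s)) := by
          apply mul_le_mul_of_nonneg_left _ ha0
          exact mul_le_mul_of_nonneg_left h3 hw0
      _ = _ := by
          rw [hsdef, hinv]
          ring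
  have q2 : (Pr μ).real (⋃ k : ℕ, (Avoid J B ∩ {ω | ¬ Cov D ω (cb D x (R / 2))
      (Ioc (Tm d s₀ t k) (Tm d s₀ t (k + 1))) (R / (sc s₀ (k + 1) : ℝ) ^ 2)})) ≤
      2 * (a * (α1 * K1 / (2 * s₀))) := iUnion_le (Pr μ) (by positivity) p2
  have q3 : (Pr μ).real (⋃ k : ℕ, (Avoid J B ∩ {ω | Chain D ω (cb D x (R / 2))
      (Ioc (Tm d s₀ t (k + 1)) (Tm d s₀ t (k + 2))) (R / (sc s₀ (k + 1) : ℝ) ^ 2)
      (C * sc s₀ (k + 1))})) ≤ 2 * (a * (w * K2 / (2 * s₀))) := iUnion_le (Pr μ) (by positivity) p3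
  unfold Zbad
  rw [Set.inter_union_distrib_left, Set.inter_union_distrib_left, Set.inter_iUnion,
    Set.inter_iUnion]
  refine (measureReal_union_le _ _).trans ?_
  have h4 := measureReal_union_le (μ := Pr μ) (⋃ k : ℕ, (Avoid J B ∩ {ω | ¬ Cov D ω (cb D x (R / 2))
      (Ioc (Tm d s₀ t k) (Tm d s₀ t (k + 1))) (R / (sc s₀ (k + 1) : ℝ) ^ 2)}))
    (⋃ k : ℕ, (Avoid J B ∩ {ω | Chain D ω (cb D x (R / 2))
      (Ioc (Tm d s₀ t (k + 1)) (Tm d s₀ t (k + 2))) (R / (sc s₀ (k + 1) : ℝ) ^ 2)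
      (C * sc s₀ (k + 1))}))
  have h5 : (c₂ * 2 ^ (d + 1) * β + (α1 * K1 + w * K2) / s₀) * a =
      a * (c₂ * 2 ^ (d + 1) * β) + (2 * (a * (α1 * K1 / (2 * s₀))) +
        2 * (a * (w * K2 / (2 * s₀)))) := by
    field_simp
  rw [h5]
  linarith

end Pool.Agent.Helper40K9.RF
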