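import Pool.Agent.Helper40K9.RF.Prob

set_option autoImplicit false
set_option linter.unusedVariables false
set_option linter.unusedSectionVars false

/-! Union bounds. -/

namespace Pool.Agent.Helper40K9.RF

open Finset MeasureTheory

variable {X : Type*} [MeasurableSpace X] {μ : Measure X} [IsProbabilityMeasure μ]

theorem anti_of_step {e : ℕ → ℕ} {m : ℕ} (he : ∀ a < m, e (a + 1) < e a) {a b : ℕ} (hab : a < b)
    (hb : b ≤ m) : e b < e a := by
  obtain ⟨c, rfl⟩ := Nat.exists_eq_add_of_lt hab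
  clear hab
  induction c with
  | zero => exact he a (by omega)
  | succ c ih =>
    have h1 := ih (by omega)
    have h2 := he (a + c + 1) (by omega)
    have h3 : e (a + (c + 1) + 1) < e (a + c + 1) := h2
    omega

/-- the decreasing enumeration of a finite set with `m + 1` elements -/
noncomputable def enum (S : Finset ℕ) (m a : ℕ) : ℕ :=
  if h : a < m + 1 ∧ S.card = m + 1 then S.orderEmbOfFin h.2 (Fin.rev ⟨a, h.1⟩) else 0

theorem enum_anti {S : Finset ℕ} {m : ℕ} (hS : S.card = m + 1) :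
    ∀ a < m, enum S m (a + 1) < enum S m a := by
  intro a ha
  unfold enum
  rw [dif_pos ⟨by omega, hS⟩, dif_pos ⟨by omega, hS⟩]
  apply (S.orderEmbOfFin hS).strictMono
  rw [Fin.rev_lt_rev]
  exact Fin.mk_lt_mk.2 (by omega)

theorem enum_mem {S : Finset ℕ} {m : ℕ} (hS : S.card = m + 1) : ∀ a ≤ m, enum S m a ∈ S := by
  intro a ha
  unfold enum
  rw [dif_pos ⟨by omega, hS⟩]
  exact S.orderEmbOfFin_mem hS _

theorem exists_enum {e : ℕ → ℕ} {m : ℕ} (he : ∀ a < m, e (a + 1) < e a) {I : Finset ℕ}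
    (hI : ∀ a ≤ m, e a ∈ I) : ∃ S ∈ powersetCard (m + 1) I, ∀ a ≤ m, enum S m a = e a := by
  set f : Fin (m + 1) → ℕ := fun i => e (Fin.rev i).1 with hf
  have hmono : StrictMono f := by
    intro i j hij
    have h1 : (Fin.rev j).1 < (Fin.rev i).1 := Fin.rev_lt_rev.2 hij
    exact anti_of_step he h1 (by omega)
  have hcard : (univ.image f).card = m + 1 := by
    rw [card_image_of_injective _ hmono.injective]
    simp
  refine ⟨univ.image f, ?_, ?_⟩
  · rw [mem_powersetCard]
    refine ⟨?_, hcard⟩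
    intro x hx
    rw [mem_image] at hx
    obtain ⟨i, -, rfl⟩ := hx
    exact hI _ (by omega)
  · intro a ha
    unfold enum
    rw [dif_pos ⟨by omega, hcard⟩]
    have h1 := Finset.orderEmbOfFin_unique hcard (f := f) (fun x => mem_image_of_mem _ (mem_univ x))
      hmono
    rw [← h1]
    simp only [hf, Fin.rev_rev]

theorem chain_union {D : X → X → ℝ} (hD : Measurable (fun p : X × X => D p.1 p.2))
    {J I : Finset ℕ} (hJI : Disjoint I J) {B : Set X} (hB : MeasurableSet B) {A : Set X}
    (hA : MeasurableSet A) {h q : ℝ} (hq : ∀ x, μ.real (cb D x h) ≤ q) (hq0 : 0 ≤ q) (m : ℕ) :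
    (Pr μ).real (Avoid J B ∩ {ω | Chain D ω A I h m}) ≤
      (I.card.choose (m + 1) : ℝ) * ((Pr μ).real (Avoid J B) * (μ.real A * q ^ m)) := by
  have h1 : Avoid J B ∩ {ω | Chain D ω A I h m} ⊆
      ⋃ S ∈ powersetCard (m + 1) I, (Avoid J B ∩ ChE D A h (enum S m) m) := by
    rintro ω ⟨hω, e, he1, he2, he3, he4⟩
    obtain ⟨S, hS, hS2⟩ := exists_enum he1 he2
    simp only [Set.mem_iUnion]
    refine ⟨S, hS, hω, ?_, ?_⟩
    · rw [hS2 0 (by omega)]
      exact he3
    · intro a ha
      rw [hS2 a (by omega), hS2 (a + 1) (by omega)]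
      exact he4 a ha
  refine (measureReal_mono h1 (measure_ne_top _ _)).trans ((measureReal_biUnion_finset_le _ _).trans ?_)
  refine (sum_le_sum (g := fun _ => (Pr μ).real (Avoid J B) * (μ.real A * q ^ m)) ?_).trans ?_
  · intro S hS
    rw [mem_powersetCard] at hS
    refine chain_real hD hB hA hq hq0 (enum S m) m (enum_anti hS.2) fun a ha hJ => ?_
    exact (Finset.disjoint_left.1 hJI) (hS.1 (enum_mem hS.2 a ha)) hJ
  · rw [sum_const, card_powersetCard, nsmul_eq_mul]

theorem cov_union {D : X → X → ℝ} (hsymm : ∀ x y, D x y = D y x)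
    (htri : ∀ x y z, D x z ≤ D x y + D y z)
    (hcb : ∀ x r, MeasurableSet (cb D x r)) {J I : Finset ℕ} {B : Set X} (hB : MeasurableSet B)
    {A : Set X} {Y : Finset X} {η κ : ℝ} (hY : ∀ a ∈ A, ∃ y ∈ Y, D y a ≤ η)
    (hκ : ∀ y ∈ Y, κ ≤ μ.real (cb D y η)) (hYB : ∀ y ∈ Y, Disjoint (cb D y η) B) (hκ1 : κ ≤ 1) :
    (Pr μ).real (Avoid J B ∩ {ω | ¬ Cov D ω A I (2 * η)}) ≤
      Y.card * ((Pr μ).real (Avoid J B) * (1 - κ) ^ I.card) := by
  classical
  set Bx : X → ℕ → Set X := fun y i =>
    (if i ∈ J then Bᶜ else Set.univ) ∩ (if i ∈ I then (cb D y η)ᶜ else Set.univ) with hBx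
  have hBm : ∀ y i, MeasurableSet (Bx y i) := by
    intro y i
    refine MeasurableSet.inter ?_ ?_
    · split_ifs
      · exact hB.compl
      · exact MeasurableSet.univ
    · split_ifs
      · exact (hcb y η).compl
      · exact MeasurableSet.univ
  have h1 : Avoid J B ∩ {ω | ¬ Cov D ω A I (2 * η)} ⊆
      ⋃ y ∈ Y, {ω : ℕ → X | ∀ i ∈ J ∪ I, ω i ∈ Bx y i} := by
    rintro ω ⟨hω, hc⟩
    simp only [Set.mem_ofPred_eq, Cov] at hc
    push Not at hc
    obtain ⟨a, ha, hc⟩ := hc
    obtain ⟨y, hy, hya⟩ := hY a ha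
    simp only [Set.mem_iUnion]
    refine ⟨y, hy, fun i _ => ⟨?_, ?_⟩⟩
    · split_ifs with h
      · exact hω i h
      · trivial
    · split_ifs with h
      · intro hcon
        have h2 := hc i h
        have h3 := htri a y (ω i)
        rw [hsymm a y] at h3
        have h4 : D y (ω i) ≤ η := hcon
        linarith
      · trivial
  have h2 : ∀ y ∈ Y, (Pr μ).real {ω : ℕ → X | ∀ i ∈ J ∪ I, ω i ∈ Bx y i} ≤
      (Pr μ).real (Avoid J B) * (1 - κ) ^ I.card := by
    intro y hy
    rw [box_real μ (J ∪ I) (Bx y) fun i _ => hBm y i, avoid_real J hB]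
    have h3 : ∏ i ∈ J ∪ I, μ.real (Bx y i) ≤
        ∏ i ∈ J ∪ I, ((if i ∈ J then (1 - μ.real B) else 1) * (if i ∈ I then (1 - κ) else 1)) := by
      apply prod_le_prod
      · intro i _; exact measureReal_nonneg
      · intro i _
        simp only [hBx]
        have hk := hκ y hy
        have hk1 : μ.real (cb D y η) ≤ 1 := measureReal_le_one
        have hb0 : 0 ≤ μ.real B := measureReal_nonneg
        have hb1 : μ.real B ≤ 1 := measureReal_le_one
        split_ifs with h4 h5 h5
        · have h6 : Bᶜ ∩ (cb D y η)ᶜ = (B ∪ cb D y η)ᶜ := by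
            rw [Set.compl_union]
          rw [h6, measureReal_compl (hB.union (hcb y η)), probReal_univ,
            measureReal_union (hYB y hy).symm (hcb y η)]
          have h7 : 0 ≤ μ.real B * κ ∨ κ < 0 := by
            by_cases hκ0 : 0 ≤ κ
            · left; positivity
            · right; linarith
          rcases h7 with h7 | h7
          · nlinarith
          · nlinarith [measureReal_nonneg (μ := μ) (s := cb D y η)]
        · rw [Set.inter_univ, measureReal_compl hB, probReal_univ, mul_one]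
        · rw [Set.univ_inter, measureReal_compl (hcb y η), probReal_univ, one_mul]
          linarith
        · simp
    refine h3.trans (le_of_eq ?_)
    have e1 : (J ∪ I).filter (fun i => i ∈ J) = J := by
      ext i
      simp only [mem_filter, mem_union]
      tauto
    have e2 : (J ∪ I).filter (fun i => i ∈ I) = I := by
      ext i
      simp only [mem_filter, mem_union]
      tauto
    rw [prod_mul_distrib, prod_ite, prod_ite]
    simp only [prod_const, one_pow, mul_one, e1, e2]
  refine (measureReal_mono h1 (measure_ne_top _ _)).trans ((measureReal_biUnion_finset_le _ _).trans ?_)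
  refine (sum_le_sum h2).trans ?_
  rw [sum_const, nsmul_eq_mul]

/-- finite nets -/
theorem exists_net {D : X → X → ℝ} (hsymm : ∀ x y, D x y = D y x)
    (htri : ∀ x y z, D x z ≤ D x y + D y z) (hself : ∀ x, D x x = 0)
    (hcb : ∀ x r, MeasurableSet (cb D x r)) {A V : Set X} {η κ : ℝ} (hη : 0 < η) (hκ : 0 < κ)
    (hκ1 : ∀ x ∈ A, κ ≤ μ.real (cb D x (η / 3))) (hV : ∀ x ∈ A, cb D x (η / 3) ⊆ V) :
    ∃ Y : Finset X, (∀ y ∈ Y, y ∈ A) ∧ (∀ a ∈ A, ∃ y ∈ Y, D y a ≤ η) ∧
      (Y.card : ℝ) * κ ≤ μ.real V := by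
  classical
  have hb : ∀ Y : Finset X, (∀ y ∈ Y, y ∈ A) → (∀ y ∈ Y, ∀ z ∈ Y, y ≠ z → η < D y z) →
      (Y.card : ℝ) * κ ≤ μ.real V := by
    intro Y hY hsep
    have h1 : ∑ y ∈ Y, μ.real (cb D y (η / 3)) = μ.real (⋃ y ∈ Y, cb D y (η / 3)) := by
      symm
      apply measureReal_biUnion_finset
      · intro y hy z hz hyz
        rw [Function.onFun, Set.disjoint_left]
        intro w hw1 hw2
        have h2 := hsep y hy z hz hyz
        have h3 := htri y w z
        have h4 : D y w ≤ η / 3 := hw1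
        have h5 : D z w ≤ η / 3 := hw2
        rw [hsymm w z] at h3
        linarith
      · intro y _
        exact hcb y _
      · exact fun _ _ => measure_ne_top _ _
    have h2 : (Y.card : ℝ) * κ ≤ ∑ y ∈ Y, μ.real (cb D y (η / 3)) := by
      rw [← nsmul_eq_mul, ← sum_const]
      exact sum_le_sum fun y hy => hκ1 y (hY y hy)
    rw [h1] at h2
    refine h2.trans (measureReal_mono ?_)
    intro w hw
    simp only [Set.mem_iUnion] at hw
    obtain ⟨y, hy, hw⟩ := hw
    exact hV y (hY y hy) hw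
  by_contra hcon
  push Not at hcon
  have hall : ∀ n : ℕ, ∃ Y : Finset X, (∀ y ∈ Y, y ∈ A) ∧
      (∀ y ∈ Y, ∀ z ∈ Y, y ≠ z → η < D y z) ∧ Y.card = n := by
    intro n
    induction n with
    | zero => exact ⟨∅, by simp, by simp, by simp⟩
    | succ n ih =>
      obtain ⟨Y, h1, h2, h3⟩ := ih
      have h4 := hb Y h1 h2
      have h5 : ¬ ∀ a ∈ A, ∃ y ∈ Y, D y a ≤ η := by
        intro h5
        have := hcon Y h1 h5
        linarith
      push Not at h5
      obtain ⟨a, ha, h5⟩ := h5
      have haY : a ∉ Y := by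
        intro h6
        have := h5 a h6
        rw [hself] at this
        linarith
      refine ⟨insert a Y, ?_, ?_, ?_⟩
      · intro y hy
        rw [mem_insert] at hy
        rcases hy with rfl | hy
        · exact ha
        · exact h1 y hy
      · intro y hy z hz hyz
        rw [mem_insert] at hy hz
        rcases hy with rfl | hy <;> rcases hz with rfl | hz
        · exact absurd rfl hyz
        · rw [hsymm]; exact h5 z hz
        · exact h5 y hy
        · exact h2 y hy z hz hyz
      · rw [card_insert_of_notMem haY, h3]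
  obtain ⟨n, hn⟩ := exists_nat_gt (1 / κ)
  obtain ⟨Y, h1, h2, h3⟩ := hall n
  have h4 := hb Y h1 h2
  rw [h3] at h4
  have h5 : μ.real V ≤ 1 := measureReal_le_one
  rw [div_lt_iff₀ hκ] at hn
  linarith

end Pool.Agent.Helper40K9.RF
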